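import Mathlib
import Pool.Agent.H3.Frg4.Cnf

set_option autoImplicit false
set_option linter.unusedSectionVars false

/-!
# Short Frege derivations for systems of linear equations modulo 2: definitions

Everything is over an arbitrary type `V` of variables; `len` is the number of symbols. A derivation
is a list, last line first (`Dr`); `X` is the set of lines that need no premises. `Ex X s b n m l l'`:
the derivation `l` is extended to `l'` by at most `n` lines of length at most `b`, at most `m` of
them are longer than `s`.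

* `Dr`: derivations, extensions; `Xo`: exclusive or, balanced parity formulas `T`, the axioms that are
  used, adding a variable at one leaf (`toggle`).
* `Bal`: the balanced formula `Bal d v0 A` for a set `A` of at most `2 ^ d` variables; the sum of two such
  formulas (`baladd`). `Star`: the equation of a vertex from its clauses.
* `Trie`: the formula `TS d v0 pos g A` for an arbitrary set `A` of variables (split by the bits of `pos`
  while the set has more than `2 ^ d` elements); the sum of two such formulas costs few long lines.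
* `Merge`: binary tree over the vertices: contradiction with few long lines.
* `Sim`: the same in every complete Frege system.
-/

namespace Pool.Agent.H90.UB

open Finset Pool.Agent.H3.Frg Pool.Agent.H3.Frg2 Pool.Agent.H3.Frg4

variable {V : Type}

/-- the lines that need no premises -/
def Ax (Sch : Set (Fm ℕ)) (Γ : Set (Fm V)) : Set (Fm V) :=
  {A | A ∈ Γ ∨ ∃ ψ ∈ Sch, ∃ σ : ℕ → Fm V, A = ψ.bind σ}

/-- all sound schemes of length at most `ℓ` -/
def S0 (ℓ : ℕ) : Set (Fm ℕ) := {ψ | ψ.len ≤ ℓ ∧ ∀ x : ℕ → Bool, ψ.eval x = true}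

/-- `X` contains all instances of sound schemes of length at most `ℓ` -/
def Full (ℓ : ℕ) (X : Set (Fm V)) : Prop := ∀ ψ ∈ S0 ℓ, ∀ σ : ℕ → Fm V, ψ.bind σ ∈ X

/-- a derivation, last line first; the formulas in `X` need no premises -/
inductive Dr (X : Set (Fm V)) : List (Fm V) → Prop
  | nil : Dr X []
  | ax (A : Fm V) (l : List (Fm V)) : Dr X l → A ∈ X → Dr X (A :: l)
  | mp (A B : Fm V) (l : List (Fm V)) : Dr X l → A ∈ l → Fm.imp A B ∈ l → Dr X (B :: l)

/-- number of lines longer than `s` -/
def lg (s : ℕ) (l : List (Fm V)) : ℕ := l.countP (fun A => decide (s < A.len))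

/-- the derivation `l` is extended to `l'` by at most `n` lines of length at most `b`, at most `m` of
them are longer than `s` -/
def Ex (X : Set (Fm V)) (s b n m : ℕ) (l l' : List (Fm V)) : Prop :=
  Dr X l' ∧ (∀ A ∈ l, A ∈ l') ∧ l'.length ≤ l.length + n ∧ lg s l' ≤ lg s l + m ∧
    ∀ A ∈ l', A ∈ l ∨ A.len ≤ b

/-- exclusive or -/
def xo (A B : Fm V) : Fm V := Fm.imp (Fm.imp A B) (Fm.neg (Fm.imp B A))

/-- `A + B + C = 0` modulo 2 -/
def Z3 (A B C : Fm V) : Fm V := Fm.neg (xo (xo A B) C)

/-- `A` has the value `c` -/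
def sgn (c : Bool) (A : Fm V) : Fm V := if c then A else Fm.neg A

/-- balanced parity of `a 0, …, a (2 ^ d - 1)` -/
def T : ℕ → (ℕ → Fm V) → Fm V
  | 0, a => a 0
  | d + 1, a => xo (T d a) (T d fun i => a (2 ^ d + i))

/-- parity of a list of variables, unbalanced -/
def chain (v0 : V) : List V → Fm V
  | [] => bot v0
  | e :: l => xo (Fm.var e) (chain v0 l)

section

variable [DecidableEq V]

open scoped Classical in
/-- the leaves of the formula for the set `A`, restricted to the elements in `Y` -/
noncomputable def lf (v0 : V) (A Y : Finset V) (i : ℕ) : Fm V :=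
  if h : i < A.card then
    (if ((A.equivFin.symm ⟨i, h⟩ : A) : V) ∈ Y then Fm.var ((A.equivFin.symm ⟨i, h⟩ : A) : V)
      else bot v0)
  else bot v0

/-- balanced parity of the variables in `A ∩ Y`, at the places they have in `A` -/
noncomputable def BalX (d : ℕ) (v0 : V) (A Y : Finset V) : Fm V := T d (lf v0 A Y)

/-- balanced parity of the variables in `A` (correct if `A.card ≤ 2 ^ d`) -/
noncomputable def Bal (d : ℕ) (v0 : V) (A : Finset V) : Fm V := BalX d v0 A A

/-- parity of the variables in `A`: split by the bits of `pos` while the set is large -/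
noncomputable def TS (d : ℕ) (v0 : V) (pos : V → ℕ) : ℕ → Finset V → Fm V
  | 0, A => Bal d v0 A
  | g + 1, A => if A.card ≤ 2 ^ d then Bal d v0 A else
      xo (TS d v0 pos g (A.filter fun e => (pos e).testBit g = false))
        (TS d v0 pos g (A.filter fun e => (pos e).testBit g = true))

/-- symmetric difference of `inc v, …, inc (v + 2 ^ h - 1)` -/
def SD (inc : ℕ → Finset V) : ℕ → ℕ → Finset V
  | 0, v => inc v
  | h + 1, v => symmDiff (SD inc h v) (SD inc h (v + 2 ^ h))

end

/-- sum modulo 2 of `ch v, …, ch (v + 2 ^ h - 1)` -/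
def CD (ch : ℕ → Bool) : ℕ → ℕ → Bool
  | 0, v => ch v
  | h + 1, v => xor (CD ch h v) (CD ch h (v + 2 ^ h))

/-- The clauses `C 0, …, C (2 ^ d - 1)` are a system of linear equations modulo 2 whose sum is `0 = 1`:
there are between `N` and `2 N` equations, at most `Dm N` variables, at most `Dm` variables in each
equation, and every equation follows from at most `2 ^ Dm` of the clauses. -/
def UBP (Dm N : ℕ) (C : ℕ → Fm ℕ) : Prop :=
  ∃ (ne hh : ℕ) (v0 : Fin ne) (C' : ℕ → Fm (Fin ne)) (inc : ℕ → Finset (Fin ne)) (ch : ℕ → Bool),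
    ne ≤ Dm * N ∧ N ≤ 2 ^ hh ∧ 2 ^ hh ≤ 2 * N ∧
    (∀ i, C i = (C' i).ren Fin.val) ∧ (∀ i, (C' i).len ≤ 4 * Dm) ∧
    (∀ v, (inc v).card ≤ Dm) ∧ SD inc hh 0 = ∅ ∧ CD ch hh 0 = true ∧
    ∀ v, ∃ I : List ℕ, I.length ≤ 2 ^ Dm ∧
      ∀ x : Fin ne → Bool, (∀ i ∈ I, (C' i).eval x = true) →
        (chain v0 (inc v).toList).eval x = ch v

end Pool.Agent.H90.UB
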