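import Mathlib
import Pool.Agent.H90.UB.Defs

set_option autoImplicit false
set_option linter.unusedSectionVars false

/-!
# Module DR: derivations as lists
-/

namespace Pool.Agent.H90.UB

open Finset Pool.Agent.H3.Frg Pool.Agent.H3.Frg2 Pool.Agent.H3.Frg4

variable {V : Type} {X : Set (Fm V)} {s b n m n' m' : ℕ} {l l' l'' : List (Fm V)}

theorem lg_cons (s : ℕ) (A : Fm V) (l : List (Fm V)) :
    lg s (A :: l) = lg s l + if s < A.len then 1 else 0 := by
  unfold lg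
  rw [List.countP_cons]
  simp

theorem Ex.dr (h : Ex X s b n m l l') : Dr X l' := h.1

theorem Ex.sub (h : Ex X s b n m l l') {A : Fm V} (hA : A ∈ l) : A ∈ l' := h.2.1 A hA

theorem Ex.refl (h : Dr X l) (s b n m : ℕ) : Ex X s b n m l l :=
  ⟨h, fun _ h => h, by omega, by omega, fun _ h => Or.inl h⟩

theorem Ex.mono (h : Ex X s b n m l l') (hn : n ≤ n') (hm : m ≤ m') : Ex X s b n' m' l l' :=
  ⟨h.1, h.2.1, by have := h.2.2.1; omega, by have := h.2.2.2.1; omega, h.2.2.2.2⟩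

theorem Ex.trans (h : Ex X s b n m l l') (h' : Ex X s b n' m' l' l'') :
    Ex X s b (n + n') (m + m') l l'' := by
  obtain ⟨-, h2, h3, h4, h5⟩ := h
  obtain ⟨h1', h2', h3', h4', h5'⟩ := h'
  refine ⟨h1', fun A hA => h2' A (h2 A hA), by omega, by omega, fun A hA => ?_⟩
  rcases h5' A hA with h | h
  · exact h5 A h
  · exact Or.inr h

/-- one more line -/
theorem ex_cons {A : Fm V} (h : Dr X (A :: l)) (hb : A.len ≤ b) (hs : A.len ≤ s ∨ 1 ≤ m) :
    Ex X s b 1 m l (A :: l) := by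
  refine ⟨h, fun B hB => List.mem_cons_of_mem _ hB, by simp, ?_, fun B hB => ?_⟩
  · rw [lg_cons]
    split_ifs with h1
    · rcases hs with h2 | h2 <;> omega
    · omega
  · rcases List.mem_cons.1 hB with rfl | hB
    · exact Or.inr hb
    · exact Or.inl hB

theorem ex_ax {A : Fm V} (h : Dr X l) (hA : A ∈ X) (hb : A.len ≤ b) (hs : A.len ≤ s ∨ 1 ≤ m) :
    ∃ l', Ex X s b 1 m l l' ∧ A ∈ l' :=
  ⟨A :: l, ex_cons (Dr.ax A l h hA) hb hs, List.mem_cons_self⟩

theorem ex_mp {A B : Fm V} (h : Dr X l) (hA : A ∈ l) (hAB : Fm.imp A B ∈ l) (hb : B.len ≤ b)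
    (hs : B.len ≤ s ∨ 1 ≤ m) : ∃ l', Ex X s b 1 m l l' ∧ B ∈ l' :=
  ⟨B :: l, ex_cons (Dr.mp A B l h hA hAB) hb hs, List.mem_cons_self⟩

/-- use of an axiom `A → B` -/
theorem inf1 {A B : Fm V} (h : Dr X l) (hX : Fm.imp A B ∈ X) (hA : A ∈ l)
    (hb : (Fm.imp A B).len ≤ b) (hs : (Fm.imp A B).len ≤ s ∨ 2 ≤ m) :
    ∃ l', Ex X s b 2 m l l' ∧ B ∈ l' := by
  have hl : (Fm.imp A B).len = A.len + B.len + 1 := rfl
  obtain ⟨m1, m2, hm, hs1, hs2⟩ : ∃ m1 m2, m1 + m2 ≤ m ∧ ((Fm.imp A B).len ≤ s ∨ 1 ≤ m1) ∧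
      ((Fm.imp A B).len ≤ s ∨ 1 ≤ m2) := by
    rcases hs with h1 | h1
    · exact ⟨0, 0, by omega, Or.inl h1, Or.inl h1⟩
    · exact ⟨1, 1, h1, Or.inr le_rfl, Or.inr le_rfl⟩
  obtain ⟨l1, e1, k1⟩ := ex_ax (m := m1) h hX hb hs1
  obtain ⟨l2, e2, k2⟩ := ex_mp (m := m2) (s := s) (b := b) e1.dr (e1.sub hA) k1 (by omega)
    (by omega)
  exact ⟨l2, (e1.trans e2).mono (by omega) hm, k2⟩

/-- use of an axiom `A → B → C` -/
theorem inf2 {A B C : Fm V} (h : Dr X l) (hX : Fm.imp A (Fm.imp B C) ∈ X) (hA : A ∈ l)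
    (hB : B ∈ l) (hb : (Fm.imp A (Fm.imp B C)).len ≤ b)
    (hs : (Fm.imp A (Fm.imp B C)).len ≤ s ∨ 3 ≤ m) :
    ∃ l', Ex X s b 3 m l l' ∧ C ∈ l' := by
  have hl : (Fm.imp A (Fm.imp B C)).len = A.len + (B.len + C.len + 1) + 1 := rfl
  obtain ⟨m1, m2, hm, hs1, hs2⟩ : ∃ m1 m2, m1 + m2 ≤ m ∧
      ((Fm.imp A (Fm.imp B C)).len ≤ s ∨ 2 ≤ m1) ∧
      ((Fm.imp A (Fm.imp B C)).len ≤ s ∨ 1 ≤ m2) := by
    rcases hs with h1 | h1
    · exact ⟨0, 0, by omega, Or.inl h1, Or.inl h1⟩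
    · exact ⟨2, 1, h1, Or.inr le_rfl, Or.inr le_rfl⟩
  obtain ⟨l1, e1, k1⟩ := inf1 (m := m1) h hX hA hb hs1
  obtain ⟨l2, e2, k2⟩ := ex_mp (m := m2) (s := s) (b := b) e1.dr (e1.sub hB) k1 (by omega)
    (by omega)
  exact ⟨l2, (e1.trans e2).mono (by omega) hm, k2⟩

/-- use of an axiom `A → B → C → D` -/
theorem inf3 {A B C D : Fm V} (h : Dr X l) (hX : Fm.imp A (Fm.imp B (Fm.imp C D)) ∈ X)
    (hA : A ∈ l) (hB : B ∈ l) (hC : C ∈ l) (hb : (Fm.imp A (Fm.imp B (Fm.imp C D))).len ≤ b)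
    (hs : (Fm.imp A (Fm.imp B (Fm.imp C D))).len ≤ s ∨ 4 ≤ m) :
    ∃ l', Ex X s b 4 m l l' ∧ D ∈ l' := by
  have hl : (Fm.imp A (Fm.imp B (Fm.imp C D))).len = A.len + (B.len + (C.len + D.len + 1) + 1) + 1 :=
    rfl
  obtain ⟨m1, m2, hm, hs1, hs2⟩ : ∃ m1 m2, m1 + m2 ≤ m ∧
      ((Fm.imp A (Fm.imp B (Fm.imp C D))).len ≤ s ∨ 3 ≤ m1) ∧
      ((Fm.imp A (Fm.imp B (Fm.imp C D))).len ≤ s ∨ 1 ≤ m2) := by
    rcases hs with h1 | h1
    · exact ⟨0, 0, by omega, Or.inl h1, Or.inl h1⟩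
    · exact ⟨3, 1, h1, Or.inr le_rfl, Or.inr le_rfl⟩
  obtain ⟨l1, e1, k1⟩ := inf2 (m := m1) h hX hA hB hb hs1
  obtain ⟨l2, e2, k2⟩ := ex_mp (m := m2) (s := s) (b := b) e1.dr (e1.sub hC) k1 (by omega)
    (by omega)
  exact ⟨l2, (e1.trans e2).mono (by omega) hm, k2⟩

/-- implication with a list of premises -/
def imps : List (Fm V) → Fm V → Fm V
  | [], B => B
  | A :: l, B => Fm.imp A (imps l B)

theorem len_imps_le (Ps : List (Fm V)) (B : Fm V) {q : ℕ} (h : ∀ A ∈ Ps, A.len ≤ q) :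
    (imps Ps B).len ≤ Ps.length * (q + 1) + B.len := by
  induction Ps with
  | nil => simp [imps]
  | cons A Ps ih =>
    have h1 := ih fun C hC => h C (List.mem_cons_of_mem _ hC)
    have h2 := h A List.mem_cons_self
    simp only [imps, Fm.len, List.length_cons]
    have h3 : (Ps.length + 1) * (q + 1) = Ps.length * (q + 1) + (q + 1) := by ring
    omega

/-- use of an implication in `l` with a list of premises -/
theorem infs0 {B : Fm V} : ∀ (Ps : List (Fm V)) (l : List (Fm V)), Dr X l → imps Ps B ∈ l →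
    (∀ A ∈ Ps, A ∈ l) → (imps Ps B).len ≤ b → ((imps Ps B).len ≤ s ∨ Ps.length ≤ m) →
    ∃ l', Ex X s b Ps.length m l l' ∧ B ∈ l' := by
  intro Ps
  induction Ps generalizing m with
  | nil => intro l h hX _ _ _; exact ⟨l, Ex.refl h _ _ _ _, hX⟩
  | cons A Ps ih =>
    intro l h hX hPs hb hs
    have hl : (imps (A :: Ps) B).len = A.len + (imps Ps B).len + 1 := rfl
    obtain ⟨m1, m2, hm, hs1, hs2⟩ : ∃ m1 m2, m1 + m2 ≤ m ∧
        ((imps (A :: Ps) B).len ≤ s ∨ 1 ≤ m1) ∧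
        ((imps (A :: Ps) B).len ≤ s ∨ Ps.length ≤ m2) := by
      rcases hs with h1 | h1
      · exact ⟨0, 0, by omega, Or.inl h1, Or.inl h1⟩
      · simp only [List.length_cons] at h1
        exact ⟨1, m - 1, by omega, Or.inr le_rfl, Or.inr (by omega)⟩
    obtain ⟨l1, e1, k1⟩ := ex_mp (m := m1) (s := s) (b := b) (A := A) (B := imps Ps B) h
      (hPs A List.mem_cons_self) hX (by omega) (by omega)
    obtain ⟨l2, e2, k2⟩ := ih (m := m2) l1 e1.dr k1
      (fun C hC => e1.sub (hPs C (List.mem_cons_of_mem _ hC))) (by omega) (by omega)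
    refine ⟨l2, (e1.trans e2).mono ?_ hm, k2⟩
    simp only [List.length_cons]; omega

/-- use of an axiom with a list of premises -/
theorem infs {B : Fm V} (Ps : List (Fm V)) (h : Dr X l) (hX : imps Ps B ∈ X)
    (hPs : ∀ A ∈ Ps, A ∈ l) (hb : (imps Ps B).len ≤ b)
    (hs : (imps Ps B).len ≤ s ∨ Ps.length + 1 ≤ m) :
    ∃ l', Ex X s b (Ps.length + 1) m l l' ∧ B ∈ l' := by
  obtain ⟨m1, m2, hm, hs1, hs2⟩ : ∃ m1 m2, m1 + m2 ≤ m ∧
      ((imps Ps B).len ≤ s ∨ 1 ≤ m1) ∧ ((imps Ps B).len ≤ s ∨ Ps.length ≤ m2) := by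
    rcases hs with h1 | h1
    · exact ⟨0, 0, by omega, Or.inl h1, Or.inl h1⟩
    · exact ⟨1, m - 1, by omega, Or.inr le_rfl, Or.inr (by omega)⟩
  obtain ⟨l1, e1, k1⟩ := ex_ax (m := m1) h hX hb hs1
  obtain ⟨l2, e2, k2⟩ := infs0 (m := m2) (s := s) (b := b) Ps l1 e1.dr k1
    (fun A hA => e1.sub (hPs A hA)) hb hs2
  exact ⟨l2, (e1.trans e2).mono (by omega) hm, k2⟩

/-- from lists to functions -/
theorem to_der {Sch : Set (Fm ℕ)} {Γ : Set (Fm V)} {l : List (Fm V)} (h : Dr (Ax Sch Γ) l) :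
    ∃ pf : Fin l.length → Fm V, IsDer Sch Γ pf ∧ (∀ i, pf i ∈ l) ∧ ∀ A ∈ l, ∃ i, pf i = A := by
  -- `pf i = l.get (rev i)`
  have key : ∀ (l : List (Fm V)), Dr (Ax Sch Γ) l → ∀ (i : ℕ) (hi : i < l.length),
      l[i] ∈ Γ ∨ (∃ ψ ∈ Sch, ∃ σ : ℕ → Fm V, l[i] = ψ.bind σ) ∨
        ∃ (j k : ℕ) (hj : j < l.length) (hk : k < l.length), i < j ∧ i < k ∧
          l[k] = Fm.imp l[j] l[i] := by
    intro l h
    induction h with
    | nil => intro i hi; simp at hi
    | ax A l _ hA ih =>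
      intro i hi
      cases i with
      | zero =>
        rcases hA with hA | hA
        · exact Or.inl hA
        · exact Or.inr (Or.inl hA)
      | succ i =>
        rcases ih i (by simpa using hi) with h | h | ⟨j, k, hj, hk, h1, h2, h3⟩
        · exact Or.inl h
        · exact Or.inr (Or.inl h)
        · exact Or.inr (Or.inr ⟨j + 1, k + 1, by simpa using hj, by simpa using hk, by omega,
            by omega, by simpa using h3⟩)
    | mp A B l _ hA hAB ih =>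
      intro i hi
      cases i with
      | zero =>
        obtain ⟨j, hj, hj'⟩ := List.getElem_of_mem hA
        obtain ⟨k, hk, hk'⟩ := List.getElem_of_mem hAB
        refine Or.inr (Or.inr ⟨j + 1, k + 1, by simpa using hj, by simpa using hk, by omega,
          by omega, ?_⟩)
        simp only [List.getElem_cons_succ, List.getElem_cons_zero]
        rw [hj', hk']
      | succ i =>
        rcases ih i (by simpa using hi) with h | h | ⟨j, k, hj, hk, h1, h2, h3⟩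
        · exact Or.inl h
        · exact Or.inr (Or.inl h)
        · exact Or.inr (Or.inr ⟨j + 1, k + 1, by simpa using hj, by simpa using hk, by omega,
            by omega, by simpa using h3⟩)
  refine ⟨fun i => l[l.length - 1 - (i : ℕ)]'(by have := i.isLt; omega), fun i => ?_,
    fun i => List.getElem_mem _, fun A hA => ?_⟩
  · rcases key l h (l.length - 1 - (i : ℕ)) (by have := i.isLt; omega) with
      h | h | ⟨j, k, hj, hk, h1, h2, h3⟩
    · exact Or.inl h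
    · exact Or.inr (Or.inl h)
    · refine Or.inr (Or.inr ⟨⟨l.length - 1 - j, by omega⟩, ⟨l.length - 1 - k, by omega⟩, ?_, ?_, ?_⟩)
      · rw [Fin.lt_def]; simp only; omega
      · rw [Fin.lt_def]; simp only; omega
      · have e1 : l.length - 1 - (l.length - 1 - j) = j := by omega
        have e2 : l.length - 1 - (l.length - 1 - k) = k := by omega
        simp only [e1, e2]
        exact h3
  · obtain ⟨j, hj, hj'⟩ := List.getElem_of_mem hA
    refine ⟨⟨l.length - 1 - j, by omega⟩, ?_⟩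
    have e1 : l.length - 1 - (l.length - 1 - j) = j := by omega
    simp only [e1]
    exact hj'

/-- different long lines -/
theorem ncard_long (s : ℕ) (l : List (Fm V)) : {A | A ∈ l ∧ s < A.len}.ncard ≤ lg s l := by
  classical
  have h1 : {A | A ∈ l ∧ s < A.len} = ((l.filter (fun A => decide (s < A.len))).toFinset : Set (Fm V)) := by
    ext A
    simp
  rw [h1, Set.ncard_coe_finset]
  refine (List.toFinset_card_le _).trans ?_
  rw [← List.countP_eq_length_filter]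
  exact le_rfl

end Pool.Agent.H90.UB
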