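import Mathlib
import Pool.Agent.H90.UB.Dr

set_option autoImplicit false
set_option linter.unusedSectionVars false
set_option linter.unusedSimpArgs false

/-!
# Module XO: parity formulas and the axioms that are used
-/

namespace Pool.Agent.H90.UB

open Finset Pool.Agent.H3.Frg Pool.Agent.H3.Frg2 Pool.Agent.H3.Frg4

variable {V : Type} {X : Set (Fm V)} {s b n m : ℕ} {l : List (Fm V)}

theorem len_xo (A B : Fm V) : (xo A B).len = 2 * A.len + 2 * B.len + 4 := by
  simp only [xo, Fm.len]; ring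

theorem len_Z3 (A B C : Fm V) : (Z3 A B C).len = 4 * A.len + 4 * B.len + 2 * C.len + 13 := by
  simp only [Z3, Fm.len, len_xo]; ring

theorem len_sgn_le (c : Bool) (A : Fm V) : (sgn c A).len ≤ A.len + 1 := by
  cases c <;> simp [sgn, Fm.len]

theorem len_bot (v : V) : (bot v).len = 4 := rfl

theorem eval_xo (A B : Fm V) (x : V → Bool) : (xo A B).eval x = xor (A.eval x) (B.eval x) := by
  simp only [xo, Fm.eval]
  cases A.eval x <;> cases B.eval x <;> rfl

theorem eval_Z3 (A B C : Fm V) (x : V → Bool) :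
    (Z3 A B C).eval x = !(xor (xor (A.eval x) (B.eval x)) (C.eval x)) := by
  simp only [Z3, Fm.eval, eval_xo]

theorem eval_sgn (c : Bool) (A : Fm V) (x : V → Bool) :
    (sgn c A).eval x = true ↔ A.eval x = c := by
  cases c <;> simp [sgn, Fm.eval]

theorem bind_xo (σ : ℕ → Fm V) (A B : Fm ℕ) : (xo A B).bind σ = xo (A.bind σ) (B.bind σ) := rfl

theorem bind_Z3 (σ : ℕ → Fm V) (A B C : Fm ℕ) :
    (Z3 A B C).bind σ = Z3 (A.bind σ) (B.bind σ) (C.bind σ) := rfl

theorem bind_sgn (σ : ℕ → Fm V) (c : Bool) (A : Fm ℕ) :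
    (sgn c A).bind σ = sgn c (A.bind σ) := by
  cases c <;> rfl

theorem T_congr (d : ℕ) : ∀ (a a' : ℕ → Fm V), (∀ i < 2 ^ d, a i = a' i) → T d a = T d a' := by
  induction d with
  | zero => intro a a' h; exact h 0 (by norm_num)
  | succ d ih =>
    intro a a' h
    simp only [T]
    rw [ih a a' fun i hi => h i (by rw [pow_succ]; omega),
      ih (fun i => a (2 ^ d + i)) (fun i => a' (2 ^ d + i)) fun i hi =>
        h (2 ^ d + i) (by rw [pow_succ]; omega)]

theorem len_T (d : ℕ) {q : ℕ} : ∀ (a : ℕ → Fm V), (∀ i, (a i).len ≤ q) →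
    (T d a).len + 2 ≤ 4 ^ d * (q + 2) := by
  induction d with
  | zero => intro a h; have := h 0; simp only [T, pow_zero]; omega
  | succ d ih =>
    intro a h
    have h1 := ih a h
    have h2 := ih (fun i => a (2 ^ d + i)) fun i => h _
    simp only [T, len_xo]
    have h3 : 4 ^ (d + 1) * (q + 2) = 4 * (4 ^ d * (q + 2)) := by ring
    omega

theorem eval_chain (v0 : V) (x : V → Bool) : ∀ l : List V,
    (chain v0 l).eval x = l.foldr (fun e c => xor (x e) c) false := by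
  intro l
  induction l with
  | nil => exact eval_bot v0 x
  | cons e l ih => simp only [chain, eval_xo, Fm.eval, List.foldr_cons, ih]

theorem len_chain (v0 : V) : ∀ l : List V, (chain v0 l).len + 6 ≤ 10 * 2 ^ l.length := by
  intro l
  induction l with
  | nil => simp [chain, len_bot]
  | cons e l ih =>
    simp only [chain, len_xo, List.length_cons, pow_succ]
    have : (Fm.var e : Fm V).len = 1 := rfl
    omega

/-- every tautology of length at most `ℓ` is an axiom -/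
theorem Full.taut {ℓ : ℕ} (hX : Full ℓ X) {A : Fm V} (f : V → ℕ) (g : ℕ → V)
    (hgf : ∀ v, g (f v) = v) (hl : A.len ≤ ℓ) (hA : ∀ x, A.eval x = true) : A ∈ X := by
  have h1 : ∀ A : Fm V, (A.ren f).bind (fun i => Fm.var (g i)) = A := by
    intro A
    induction A with
    | var i => simp only [Fm.ren, Fm.bind, hgf]
    | neg A ih => simp only [Fm.ren, Fm.bind, ih]
    | imp A B ihA ihB => simp only [Fm.ren, Fm.bind, ihA, ihB]
  have h2 := hX (A.ren f) ⟨by rw [len_ren]; exact hl, fun x => by rw [eval_ren]; exact hA _⟩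
    (fun i => Fm.var (g i))
  rwa [h1] at h2

/-- a substitution with nine values -/
def sub9 (a0 a1 a2 a3 a4 a5 a6 a7 a8 : Fm V) : ℕ → Fm V
  | 0 => a0
  | 1 => a1
  | 2 => a2
  | 3 => a3
  | 4 => a4
  | 5 => a5
  | 6 => a6
  | 7 => a7
  | _ => a8

section Schemes

variable (hX : Full 1000 X)
include hX

/-- 0 + A + A = 0 -/
theorem s_zbot (v0 : V) (A : Fm V) : Z3 (bot v0) A A ∈ X := by
  refine hX ((Z3 (Fm.neg (Fm.imp (Fm.var 0) (Fm.var 0))) (Fm.var 1) (Fm.var 1))) ⟨by decide, fun x => ?_⟩ (sub9 (Fm.var v0) A (Fm.var v0) (Fm.var v0) (Fm.var v0) (Fm.var v0) (Fm.var v0) (Fm.var v0) (Fm.var v0))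
  simp only [imps, Fm.eval, eval_Z3, eval_xo, bot]
  generalize x 0 = y0
  generalize x 1 = y1
  revert y0 y1
  decide

/-- A + A + 0 = 0 -/
theorem s_zzbot (v0 : V) (A : Fm V) : Z3 A A (bot v0) ∈ X := by
  refine hX ((Z3 (Fm.var 1) (Fm.var 1) (Fm.neg (Fm.imp (Fm.var 0) (Fm.var 0))))) ⟨by decide, fun x => ?_⟩ (sub9 (Fm.var v0) A (Fm.var v0) (Fm.var v0) (Fm.var v0) (Fm.var v0) (Fm.var v0) (Fm.var v0) (Fm.var v0))
  simp only [imps, Fm.eval, eval_Z3, eval_xo, bot]
  generalize x 0 = y0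
  generalize x 1 = y1
  revert y0 y1
  decide

/-- 0 is false -/
theorem s_nbot (v0 : V) : Fm.neg (bot v0) ∈ X := by
  refine hX ((Fm.neg (Fm.neg (Fm.imp (Fm.var 0) (Fm.var 0))))) ⟨by decide, fun x => ?_⟩ (sub9 (Fm.var v0) (Fm.var v0) (Fm.var v0) (Fm.var v0) (Fm.var v0) (Fm.var v0) (Fm.var v0) (Fm.var v0) (Fm.var v0))
  simp only [imps, Fm.eval, eval_Z3, eval_xo, bot]
  generalize x 0 = y0
  revert y0
  decide

/-- A + A = 0 -/
theorem s_nxo (A : Fm V) : Fm.neg (xo A A) ∈ X := by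
  refine hX ((Fm.neg (xo (Fm.var 0) (Fm.var 0)))) ⟨by decide, fun x => ?_⟩ (sub9 A A A A A A A A A)
  simp only [imps, Fm.eval, eval_Z3, eval_xo, bot]
  generalize x 0 = y0
  revert y0
  decide

/-- add on the left -/
theorem s_left (A B C D : Fm V) : Fm.imp (Z3 A B C) (Z3 (xo A D) B (xo C D)) ∈ X := by
  refine hX ((Fm.imp (Z3 (Fm.var 0) (Fm.var 1) (Fm.var 2)) (Z3 (xo (Fm.var 0) (Fm.var 3)) (Fm.var 1) (xo (Fm.var 2) (Fm.var 3))))) ⟨by decide, fun x => ?_⟩ (sub9 A B C D A A A A A)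
  simp only [imps, Fm.eval, eval_Z3, eval_xo, bot]
  generalize x 0 = y0
  generalize x 1 = y1
  generalize x 2 = y2
  generalize x 3 = y3
  revert y0 y1 y2 y3
  decide

/-- add on the right -/
theorem s_right (A B C D : Fm V) : Fm.imp (Z3 A B C) (Z3 (xo D A) B (xo D C)) ∈ X := by
  refine hX ((Fm.imp (Z3 (Fm.var 0) (Fm.var 1) (Fm.var 2)) (Z3 (xo (Fm.var 3) (Fm.var 0)) (Fm.var 1) (xo (Fm.var 3) (Fm.var 2))))) ⟨by decide, fun x => ?_⟩ (sub9 A B C D A A A A A)
  simp only [imps, Fm.eval, eval_Z3, eval_xo, bot]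
  generalize x 0 = y0
  generalize x 1 = y1
  generalize x 2 = y2
  generalize x 3 = y3
  revert y0 y1 y2 y3
  decide

/-- three zeros -/
theorem s_zn (A : Fm V) : Fm.imp (Fm.neg A) (Z3 A A A) ∈ X := by
  refine hX ((Fm.imp (Fm.neg (Fm.var 0)) (Z3 (Fm.var 0) (Fm.var 0) (Fm.var 0)))) ⟨by decide, fun x => ?_⟩ (sub9 A A A A A A A A A)
  simp only [imps, Fm.eval, eval_Z3, eval_xo, bot]
  generalize x 0 = y0
  revert y0
  decide

/-- add y to P and Q -/
theorem s_t12 (P Q R y P1 Q1 : Fm V) : Fm.imp (Z3 P Q R) (Fm.imp (Z3 P y P1) (Fm.imp (Z3 Q y Q1) (Z3 P1 Q1 R))) ∈ X := by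
  refine hX ((Fm.imp (Z3 (Fm.var 0) (Fm.var 1) (Fm.var 2)) (Fm.imp (Z3 (Fm.var 0) (Fm.var 3) (Fm.var 4)) (Fm.imp (Z3 (Fm.var 1) (Fm.var 3) (Fm.var 5)) (Z3 (Fm.var 4) (Fm.var 5) (Fm.var 2)))))) ⟨by decide, fun x => ?_⟩ (sub9 P Q R y P1 Q1 P P P)
  simp only [imps, Fm.eval, eval_Z3, eval_xo, bot]
  generalize x 0 = y0
  generalize x 1 = y1
  generalize x 2 = y2
  generalize x 3 = y3
  generalize x 4 = y4
  generalize x 5 = y5
  revert y0 y1 y2 y3 y4 y5
  decide

/-- add y to P and R -/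
theorem s_t13 (P Q R y P1 R1 : Fm V) : Fm.imp (Z3 P Q R) (Fm.imp (Z3 P y P1) (Fm.imp (Z3 R y R1) (Z3 P1 Q R1))) ∈ X := by
  refine hX ((Fm.imp (Z3 (Fm.var 0) (Fm.var 1) (Fm.var 2)) (Fm.imp (Z3 (Fm.var 0) (Fm.var 3) (Fm.var 4)) (Fm.imp (Z3 (Fm.var 2) (Fm.var 3) (Fm.var 5)) (Z3 (Fm.var 4) (Fm.var 1) (Fm.var 5)))))) ⟨by decide, fun x => ?_⟩ (sub9 P Q R y P1 R1 P P P)
  simp only [imps, Fm.eval, eval_Z3, eval_xo, bot]
  generalize x 0 = y0
  generalize x 1 = y1
  generalize x 2 = y2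
  generalize x 3 = y3
  generalize x 4 = y4
  generalize x 5 = y5
  revert y0 y1 y2 y3 y4 y5
  decide

/-- add y to Q and R -/
theorem s_t23 (P Q R y Q1 R1 : Fm V) : Fm.imp (Z3 P Q R) (Fm.imp (Z3 Q y Q1) (Fm.imp (Z3 R y R1) (Z3 P Q1 R1))) ∈ X := by
  refine hX ((Fm.imp (Z3 (Fm.var 0) (Fm.var 1) (Fm.var 2)) (Fm.imp (Z3 (Fm.var 1) (Fm.var 3) (Fm.var 4)) (Fm.imp (Z3 (Fm.var 2) (Fm.var 3) (Fm.var 5)) (Z3 (Fm.var 0) (Fm.var 4) (Fm.var 5)))))) ⟨by decide, fun x => ?_⟩ (sub9 P Q R y Q1 R1 P P P)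
  simp only [imps, Fm.eval, eval_Z3, eval_xo, bot]
  generalize x 0 = y0
  generalize x 1 = y1
  generalize x 2 = y2
  generalize x 3 = y3
  generalize x 4 = y4
  generalize x 5 = y5
  revert y0 y1 y2 y3 y4 y5
  decide

/-- one step of a chain -/
theorem s_chain (P B C y D : Fm V) : Fm.imp (Z3 P B C) (Fm.imp (Z3 D y B) (Z3 P D (xo y C))) ∈ X := by
  refine hX ((Fm.imp (Z3 (Fm.var 0) (Fm.var 1) (Fm.var 2)) (Fm.imp (Z3 (Fm.var 4) (Fm.var 3) (Fm.var 1)) (Z3 (Fm.var 0) (Fm.var 4) (xo (Fm.var 3) (Fm.var 2)))))) ⟨by decide, fun x => ?_⟩ (sub9 P B C y D P P P P)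
  simp only [imps, Fm.eval, eval_Z3, eval_xo, bot]
  generalize x 0 = y0
  generalize x 1 = y1
  generalize x 2 = y2
  generalize x 3 = y3
  generalize x 4 = y4
  revert y0 y1 y2 y3 y4
  decide

/-- P + Q + (P + Q) = 0 -/
theorem s_zxo (P Q : Fm V) : Z3 P Q (xo P Q) ∈ X := by
  refine hX ((Z3 (Fm.var 0) (Fm.var 1) (xo (Fm.var 0) (Fm.var 1)))) ⟨by decide, fun x => ?_⟩ (sub9 P Q P P P P P P P)
  simp only [imps, Fm.eval, eval_Z3, eval_xo, bot]
  generalize x 0 = y0
  generalize x 1 = y1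
  revert y0 y1
  decide

/-- contradiction -/
theorem s_contra (P Q : Fm V) : Fm.imp P (Fm.imp (Fm.neg P) Q) ∈ X := by
  refine hX ((Fm.imp (Fm.var 0) (Fm.imp (Fm.neg (Fm.var 0)) (Fm.var 1)))) ⟨by decide, fun x => ?_⟩ (sub9 P Q P P P P P P P)
  simp only [imps, Fm.eval, eval_Z3, eval_xo, bot]
  generalize x 0 = y0
  generalize x 1 = y1
  revert y0 y1
  decide

/-- sum of two equations -/
theorem s_add5 (a0 b0 c0 a1 b1 c1 a b c : Fm V) : imps [Z3 a0 b0 c0, Z3 a1 b1 c1, Z3 a0 a1 a, Z3 b0 b1 b, Z3 c0 c1 c] (Z3 a b c) ∈ X := by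
  refine hX (imps [(Z3 (Fm.var 0) (Fm.var 1) (Fm.var 2)), (Z3 (Fm.var 3) (Fm.var 4) (Fm.var 5)), (Z3 (Fm.var 0) (Fm.var 3) (Fm.var 6)), (Z3 (Fm.var 1) (Fm.var 4) (Fm.var 7)), (Z3 (Fm.var 2) (Fm.var 5) (Fm.var 8))] (Z3 (Fm.var 6) (Fm.var 7) (Fm.var 8))) ⟨by decide, fun x => ?_⟩ (sub9 a0 b0 c0 a1 b1 c1 a b c)
  simp only [imps, Fm.eval, eval_Z3, eval_xo, bot]
  generalize x 0 = y0
  generalize x 1 = y1
  generalize x 2 = y2
  generalize x 3 = y3
  generalize x 4 = y4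
  generalize x 5 = y5
  generalize x 6 = y6
  generalize x 7 = y7
  generalize x 8 = y8
  revert y0 y1 y2 y3 y4 y5 y6 y7 y8
  decide

/-- end of a chain -/
theorem s_star (c : Bool) (P E C : Fm V) :
    Fm.imp (Z3 P E C) (Fm.imp (Fm.neg E) (Fm.imp (sgn c C) (sgn c P))) ∈ X := by
  cases c
  · refine hX (Fm.imp (Z3 (Fm.var 0) (Fm.var 1) (Fm.var 2)) (Fm.imp (Fm.neg (Fm.var 1))
      (Fm.imp (Fm.neg (Fm.var 2)) (Fm.neg (Fm.var 0))))) ⟨by decide, fun x => ?_⟩
      (sub9 P E C C C C C C C)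
    simp only [Fm.eval, eval_Z3]
    generalize x 0 = y0
    generalize x 1 = y1
    generalize x 2 = y2
    revert y0 y1 y2
    decide
  · refine hX (Fm.imp (Z3 (Fm.var 0) (Fm.var 1) (Fm.var 2)) (Fm.imp (Fm.neg (Fm.var 1))
      (Fm.imp (Fm.var 2) (Fm.var 0)))) ⟨by decide, fun x => ?_⟩ (sub9 P E C C C C C C C)
    simp only [Fm.eval, eval_Z3]
    generalize x 0 = y0
    generalize x 1 = y1
    generalize x 2 = y2
    revert y0 y1 y2
    decide

/-- sum of two equations -/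
theorem s_merge (c1 c2 : Bool) (P Q R : Fm V) :
    Fm.imp (sgn c1 P) (Fm.imp (sgn c2 Q) (Fm.imp (Z3 P Q R) (sgn (xor c1 c2) R))) ∈ X := by
  have key : ∀ c1 c2 : Bool, Fm.imp (sgn c1 (Fm.var 0)) (Fm.imp (sgn c2 (Fm.var 1))
      (Fm.imp (Z3 (Fm.var 0) (Fm.var 1) (Fm.var 2)) (sgn (xor c1 c2) (Fm.var 2)))) ∈ S0 1000 := by
    intro c1 c2
    refine ⟨by revert c1 c2; decide, fun x => ?_⟩
    cases c1 <;> cases c2 <;> simp only [sgn, Fm.eval, eval_Z3, Bool.false_eq_true, if_true,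
      if_false, Bool.xor_false, Bool.xor_true, Bool.not_false, Bool.not_true, Bool.false_xor] <;>
      (generalize x 0 = y0; generalize x 1 = y1; generalize x 2 = y2; revert y0 y1 y2; decide)
  have h := hX _ (key c1 c2) (sub9 P Q R R R R R R R)
  cases c1 <;> cases c2 <;> exact h

end Schemes

/-- adding a variable at one leaf -/
theorem toggle (hX : Full 1000 X) (d : ℕ) : ∀ (a : ℕ → Fm V) (i : ℕ) (y c : Fm V)
    (l : List (Fm V)), i < 2 ^ d → (∀ j, (a j).len ≤ 4) → y.len ≤ 4 → c.len ≤ 4 →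
    240 * 4 ^ d ≤ s → s ≤ b → Dr X l → Z3 (a i) y c ∈ l →
    ∃ l', Ex X s b (2 * d) 0 l l' ∧ Z3 (T d a) y (T d (Function.update a i c)) ∈ l' := by
  induction d with
  | zero =>
    intro a i y c l hi _ _ _ _ _ hl h
    have hi0 : i = 0 := by simpa using hi
    subst hi0
    refine ⟨l, Ex.refl hl _ _ _ _, ?_⟩
    simpa [T] using h
  | succ d ih =>
    intro a i y c l hi ha hy hc hs hsb hl h
    have hlen : ∀ (f : ℕ → Fm V), (∀ j, (f j).len ≤ 4) → (T d f).len + 2 ≤ 4 ^ d * 6 :=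
      fun f hf => len_T d f hf
    have hup : ∀ (f : ℕ → Fm V) (j : ℕ), (∀ j, (f j).len ≤ 4) →
        ∀ j', (Function.update f j c j').len ≤ 4 := by
      intro f j hf j'
      by_cases h1 : j' = j
      · subst h1; simpa using hc
      · rw [Function.update_of_ne h1]; exact hf j'
    have hs' : 240 * 4 ^ d ≤ s := by
      refine le_trans ?_ hs
      exact Nat.mul_le_mul_left _ (Nat.pow_le_pow_right (by norm_num) (Nat.le_succ d))
    rw [pow_succ] at hs
    have ha2 : ∀ j, ((fun j => a (2 ^ d + j)) j).len ≤ 4 := fun j => ha _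
    by_cases h1 : i < 2 ^ d
    · obtain ⟨l1, e1, k1⟩ := ih a i y c l h1 ha hy hc hs' hsb hl h
      have h2 : T d (fun j => Function.update a i c (2 ^ d + j)) = T d (fun j => a (2 ^ d + j)) :=
        T_congr d _ _ fun j _ => by
          rw [Function.update_of_ne (by omega)]
      have h3 : T (d + 1) (Function.update a i c) =
          xo (T d (Function.update a i c)) (T d (fun j => a (2 ^ d + j))) := by
        simp only [T, h2]
      have q1 := hlen a ha
      have q2 := hlen _ (hup a i ha)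
      have q3 := hlen _ ha2
      have q4 : (Fm.imp (Z3 (T d a) y (T d (Function.update a i c)))
          (Z3 (xo (T d a) (T d (fun j => a (2 ^ d + j)))) y
            (xo (T d (Function.update a i c)) (T d (fun j => a (2 ^ d + j)))))).len ≤ s := by
        simp only [Fm.len, len_Z3, len_xo]
        omega
      obtain ⟨l2, e2, k2⟩ := inf1 (s := s) (b := b) (m := 0) e1.dr
        (s_left hX (T d a) y (T d (Function.update a i c)) (T d (fun j => a (2 ^ d + j)))) k1
        (q4.trans hsb) (Or.inl q4)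
      refine ⟨l2, (e1.trans e2).mono (by omega) (by omega), ?_⟩
      rw [h3]
      exact k2
    · have hi' : i - 2 ^ d < 2 ^ d := by rw [pow_succ] at hi; omega
      have hi2 : 2 ^ d + (i - 2 ^ d) = i := by omega
      obtain ⟨l1, e1, k1⟩ := ih (fun j => a (2 ^ d + j)) (i - 2 ^ d) y c l hi' ha2 hy hc hs' hsb hl
        (by simpa only [hi2] using h)
      have h2 : T d (Function.update a i c) = T d a :=
        T_congr d _ _ fun j hj => by
          rw [Function.update_of_ne (by omega)]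
      have h2' : (fun j => Function.update a i c (2 ^ d + j)) =
          Function.update (fun j => a (2 ^ d + j)) (i - 2 ^ d) c := by
        funext j
        by_cases hj : j = i - 2 ^ d
        · subst hj
          rw [hi2]
          simp
        · rw [Function.update_of_ne hj, Function.update_of_ne (by omega)]
      have h3 : T (d + 1) (Function.update a i c) =
          xo (T d a) (T d (Function.update (fun j => a (2 ^ d + j)) (i - 2 ^ d) c)) := by
        simp only [T, h2, h2']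
      have q1 := hlen a ha
      have q2 := hlen _ (hup _ (i - 2 ^ d) ha2)
      have q3 := hlen _ ha2
      have q4 : (Fm.imp (Z3 (T d (fun j => a (2 ^ d + j))) y
          (T d (Function.update (fun j => a (2 ^ d + j)) (i - 2 ^ d) c)))
          (Z3 (xo (T d a) (T d (fun j => a (2 ^ d + j)))) y
            (xo (T d a) (T d (Function.update (fun j => a (2 ^ d + j)) (i - 2 ^ d) c))))).len
          ≤ s := by
        simp only [Fm.len, len_Z3, len_xo]
        omega
      obtain ⟨l2, e2, k2⟩ := inf1 (s := s) (b := b) (m := 0) e1.dr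
        (s_right hX (T d (fun j => a (2 ^ d + j))) y
          (T d (Function.update (fun j => a (2 ^ d + j)) (i - 2 ^ d) c)) (T d a)) k1
        (q4.trans hsb) (Or.inl q4)
      refine ⟨l2, (e1.trans e2).mono (by omega) (by omega), ?_⟩
      rw [h3]
      exact k2

end Pool.Agent.H90.UB
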