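import Mathlib
import Pool.Agent.H90.UB.Xo

set_option autoImplicit false
set_option linter.unusedSectionVars false

/-!
# Module BAL: the sum of two balanced parity formulas

`BalX d v0 A Y = T d (lf v0 A Y)`; `lf v0 A Y i` is the variable `A.equivFin.symm i` if it is in `Y`,
otherwise `bot v0`.

* `balX_insert_of_notMem`: if `e ∉ A` then `lf v0 A (insert e Y) = lf v0 A Y` (pointwise).
* `balX_toggle`: `e ∈ A`, `e ∉ Y`, `A.card ≤ 2 ^ d`: with `i = A.equivFin ⟨e, _⟩`,
  `lf v0 A (insert e Y) = Function.update (lf v0 A Y) i (Fm.var e)` and `lf v0 A Y i = bot v0`. Line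
  `Z3 (bot v0) (var e) (var e)` by `s_zbot`, then `toggle`.
* `balX_empty`: `lf v0 A ∅ = fun _ => bot v0`. `balX_congr`: `BalX d v0 A Y = BalX d v0 A Y'` if
  `Y ∩ A = Y' ∩ A`, in particular `BalX d v0 A (A ∪ A') = Bal d v0 A`.
* `ex_nbot`: the line `¬(T d fun _ => bot v0)`: `s_nbot` if `d = 0`, `s_nxo` if `d ≥ 1` (one line).
* `baladd`: `A'' = symmDiff A A'`. Induction on a finite set `Y ⊆ A ∪ A'` (`Finset.induction_on`): line
  `Z3 (BalX A Y) (BalX A' Y) (BalX A'' Y)`. `Y = ∅`: `ex_nbot` and `s_zn` (`inf1`). `insert e Y`: cases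
  `e ∈ A`, `e ∈ A'` (then not in `A''`): two `balX_toggle`s, `s_t12`, `inf3`; `e ∈ A`, `e ∉ A'`: `s_t13`;
  `e ∉ A`, `e ∈ A'`: `s_t23`. At most `4 * d + 6` lines for each element, at most `2 * 2 ^ d` elements.
  Lengths: `len_T` with `q = 4`: `len + 2 ≤ 6 * 4 ^ d`; `Z3` has length at most `10 q + 13`, the axiom with
  three premises at most `40 q + 60 ≤ 1000 * 4 ^ d`.
-/

namespace Pool.Agent.H90.UB

open Finset Pool.Agent.H3.Frg Pool.Agent.H3.Frg2 Pool.Agent.H3.Frg4

variable {V : Type} [DecidableEq V] {X : Set (Fm V)} {s b : ℕ} {d : ℕ} {v0 : V}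

theorem lf_len (v0 : V) (A Y : Finset V) (i : ℕ) : (lf v0 A Y i).len ≤ 4 := by
  unfold lf
  split_ifs
  · exact (by norm_num : (1 : ℕ) ≤ 4)
  · exact le_rfl
  · exact le_rfl

theorem balX_len (d : ℕ) (v0 : V) (A Y : Finset V) : (BalX d v0 A Y).len + 2 ≤ 4 ^ d * 6 :=
  len_T d _ (lf_len v0 A Y)

theorem bal_len (d : ℕ) (v0 : V) (A : Finset V) : (Bal d v0 A).len + 2 ≤ 4 ^ d * 6 :=
  balX_len d v0 A A

private theorem lf_congr {A Y Y' : Finset V} (h : ∀ e ∈ A, (e ∈ Y ↔ e ∈ Y')) :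
    lf v0 A Y = lf v0 A Y' := by
  classical
  funext i
  unfold lf
  by_cases hi : i < A.card
  · rw [dif_pos hi, dif_pos hi]
    have h1 := h _ (A.equivFin.symm ⟨i, hi⟩).2
    by_cases h2 : ((A.equivFin.symm ⟨i, hi⟩ : A) : V) ∈ Y
    · rw [if_pos h2, if_pos (h1.1 h2)]
    · rw [if_neg h2, if_neg (fun h3 => h2 (h1.2 h3))]
  · rw [dif_neg hi, dif_neg hi]

theorem balX_toggle (hX : Full 1000 X) (hs : 1000 * 4 ^ d ≤ s) (hsb : s ≤ b) {A Y : Finset V}
    {e : V} (hA : A.card ≤ 2 ^ d) (he : e ∈ A) (heY : e ∉ Y) {l : List (Fm V)} (hl : Dr X l) :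
    ∃ l', Ex X s b (2 * d + 1) 0 l l' ∧
      Z3 (BalX d v0 A Y) (Fm.var e) (BalX d v0 A (insert e Y)) ∈ l' := by
  classical
  obtain ⟨i, hi⟩ : ∃ i, i = A.equivFin ⟨e, he⟩ := ⟨_, rfl⟩
  have hi1 : (i : ℕ) < A.card := i.isLt
  have hi2 : A.equivFin.symm ⟨(i : ℕ), hi1⟩ = ⟨e, he⟩ := by
    rw [Equiv.symm_apply_eq, ← hi]
  have h1 : lf v0 A (insert e Y) = Function.update (lf v0 A Y) (i : ℕ) (Fm.var e) := by
    funext j
    by_cases hj : j = (i : ℕ)
    · subst hj
      rw [Function.update_self]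
      unfold lf
      rw [dif_pos hi1, hi2, if_pos (Finset.mem_insert_self e Y)]
    · rw [Function.update_of_ne hj]
      unfold lf
      by_cases hjA : j < A.card
      · rw [dif_pos hjA, dif_pos hjA]
        have h2 : ((A.equivFin.symm ⟨j, hjA⟩ : A) : V) ≠ e := by
          intro h3
          apply hj
          have h4 : A.equivFin.symm ⟨j, hjA⟩ = ⟨e, he⟩ := Subtype.ext h3
          rw [Equiv.symm_apply_eq, ← hi] at h4
          rw [← h4]
        by_cases h3 : ((A.equivFin.symm ⟨j, hjA⟩ : A) : V) ∈ Y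
        · rw [if_pos h3, if_pos (Finset.mem_insert_of_mem h3)]
        · rw [if_neg h3, if_neg (fun h4 => (Finset.mem_insert.1 h4).elim h2 h3)]
      · rw [dif_neg hjA, dif_neg hjA]
  have h2 : lf v0 A Y (i : ℕ) = bot v0 := by
    unfold lf
    rw [dif_pos hi1, hi2, if_neg heY]
  have hz : (Z3 (bot v0) (Fm.var e) (Fm.var e) : Fm V).len ≤ s := by
    have h3 : 1 ≤ 4 ^ d := Nat.one_le_pow _ _ (by norm_num)
    rw [len_Z3, len_bot]
    have h4 : (Fm.var e : Fm V).len = 1 := rfl
    omega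
  obtain ⟨l1, e1, k1⟩ := ex_ax (m := 0) (s := s) (b := b) hl (s_zbot hX v0 (Fm.var e))
    (hz.trans hsb) (Or.inl hz)
  rw [← h2] at k1
  obtain ⟨l2, e2, k2⟩ := toggle (s := s) (b := b) hX d (lf v0 A Y) (i : ℕ) (Fm.var e) (Fm.var e)
    l1 (lt_of_lt_of_le hi1 hA) (lf_len v0 A Y) (by simp [Fm.len]) (by simp [Fm.len])
    (by omega) hsb e1.dr k1
  refine ⟨l2, (e1.trans e2).mono (by omega) (by omega), ?_⟩
  unfold BalX
  rw [h1]
  exact k2

theorem balX_notMem {A Y : Finset V} {e : V} (he : e ∉ A) :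
    BalX d v0 A (insert e Y) = BalX d v0 A Y := by
  unfold BalX
  rw [lf_congr (Y' := Y)]
  intro e' he'
  rw [Finset.mem_insert]
  exact ⟨fun h => h.resolve_left (fun h1 => he (h1 ▸ he')), Or.inr⟩

theorem balX_empty (A : Finset V) : BalX d v0 A ∅ = T d fun _ => bot v0 := by
  unfold BalX
  congr 1
  funext i
  unfold lf
  split_ifs with h1 h2
  · exact absurd h2 (Finset.notMem_empty _)
  · rfl
  · rfl

theorem balX_eq {A Y : Finset V} (h : A ⊆ Y) : BalX d v0 A Y = Bal d v0 A := by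
  unfold Bal BalX
  rw [lf_congr (Y' := A)]
  intro e he
  exact ⟨fun _ => he, fun _ => h he⟩

theorem ex_nbot (hX : Full 1000 X) (hs : 1000 * 4 ^ d ≤ s) (hsb : s ≤ b) {l : List (Fm V)}
    (hl : Dr X l) : ∃ l', Ex X s b 1 0 l l' ∧ Fm.neg (T d fun _ => bot v0) ∈ l' := by
  have h1 := len_T (V := V) d (q := 4) (fun _ => bot v0) (fun _ => le_rfl)
  have h2 : (Fm.neg (T d fun _ => bot v0) : Fm V).len ≤ s := by
    simp only [Fm.len]; omega
  refine ex_ax (m := 0) hl ?_ (h2.trans hsb) (Or.inl h2)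
  cases d with
  | zero => exact s_nbot hX v0
  | succ d => exact s_nxo hX (T d fun _ => bot v0)

theorem baladd (hX : Full 1000 X) (hs : 1000 * 4 ^ d ≤ s) (hsb : s ≤ b) {A A' A'' : Finset V}
    (hA : A.card ≤ 2 ^ d) (hA' : A'.card ≤ 2 ^ d) (hA'' : A''.card ≤ 2 ^ d)
    (h : A'' = symmDiff A A') {l : List (Fm V)} (hl : Dr X l) :
    ∃ l', Ex X s b (2 * 2 ^ d * (4 * d + 6) + 3) 0 l l' ∧
      Z3 (Bal d v0 A) (Bal d v0 A') (Bal d v0 A'') ∈ l' := by
  classical
  have key : ∀ Y : Finset V, Y ⊆ A ∪ A' → ∃ l', Ex X s b (Y.card * (4 * d + 6) + 3) 0 l l' ∧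
      Z3 (BalX d v0 A Y) (BalX d v0 A' Y) (BalX d v0 A'' Y) ∈ l' := by
    intro Y
    induction Y using Finset.induction_on with
    | empty =>
      intro _
      rw [balX_empty, balX_empty, balX_empty]
      obtain ⟨l1, e1, k1⟩ := ex_nbot (v0 := v0) hX hs hsb hl
      have h1 := len_T (V := V) d (q := 4) (fun _ => bot v0) (fun _ => le_rfl)
      have h2 : (Fm.imp (Fm.neg (T d fun _ => bot v0)) (Z3 (T d fun _ => bot v0)
          (T d fun _ => bot v0) (T d fun _ => bot v0)) : Fm V).len ≤ s := by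
        simp only [Fm.len, len_Z3]; omega
      obtain ⟨l2, e2, k2⟩ := inf1 (m := 0) e1.dr (s_zn hX (T d fun _ => bot v0)) k1
        (h2.trans hsb) (Or.inl h2)
      refine ⟨l2, (e1.trans e2).mono ?_ (by omega), k2⟩
      simp
    | insert e Y heY ih =>
      intro hY
      obtain ⟨l1, e1, k1⟩ := ih ((Finset.subset_insert e Y).trans hY)
      have heU : e ∈ A ∪ A' := hY (Finset.mem_insert_self e Y)
      have hl : ∀ B Y' : Finset V, (BalX d v0 B Y').len + 2 ≤ 4 ^ d * 6 := balX_len d v0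
      have hve : (Fm.var e : Fm V).len = 1 := rfl
      rw [Finset.card_insert_of_notMem heY]
      have hn : Y.card * (4 * d + 6) + 3 + (2 * d + 1) + (2 * d + 1) + 4 ≤
          (Y.card + 1) * (4 * d + 6) + 3 := by
        have : (Y.card + 1) * (4 * d + 6) = Y.card * (4 * d + 6) + (4 * d + 6) := by ring
        omega
      by_cases h1 : e ∈ A
      · obtain ⟨l2, e2, k2⟩ := balX_toggle (v0 := v0) hX hs hsb hA h1 heY e1.dr
        by_cases h2 : e ∈ A'
        · -- in both
          have h3 : e ∉ A'' := by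
            rw [h, Finset.mem_symmDiff]
            rintro (⟨_, h4⟩ | ⟨_, h4⟩)
            · exact h4 h2
            · exact h4 h1
          rw [balX_notMem h3]
          obtain ⟨l3, e3, k3⟩ := balX_toggle (v0 := v0) hX hs hsb hA' h2 heY e2.dr
          have q1 := hl A Y
          have q2 := hl A' Y
          have q3 := hl A'' Y
          have q4 := hl A (insert e Y)
          have q5 := hl A' (insert e Y)
          have q : (Fm.imp (Z3 (BalX d v0 A Y) (BalX d v0 A' Y) (BalX d v0 A'' Y))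
              (Fm.imp (Z3 (BalX d v0 A Y) (Fm.var e) (BalX d v0 A (insert e Y)))
              (Fm.imp (Z3 (BalX d v0 A' Y) (Fm.var e) (BalX d v0 A' (insert e Y)))
              (Z3 (BalX d v0 A (insert e Y)) (BalX d v0 A' (insert e Y))
                (BalX d v0 A'' Y))))).len ≤ s := by
            simp only [len_Z3, hve, show ∀ P Q : Fm V, (Fm.imp P Q).len = P.len + Q.len + 1 from
              fun _ _ => rfl]
            omega
          obtain ⟨l4, e4, k4⟩ := inf3 (m := 0) e3.dr (s_t12 hX _ _ _ _ _ _)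
            (e3.sub (e2.sub k1)) (e3.sub k2) k3 (q.trans hsb) (Or.inl q)
          exact ⟨l4, (((e1.trans e2).trans e3).trans e4).mono hn (by omega), k4⟩
        · have h3 : e ∈ A'' := by
            rw [h, Finset.mem_symmDiff]
            exact Or.inl ⟨h1, h2⟩
          rw [balX_notMem h2]
          obtain ⟨l3, e3, k3⟩ := balX_toggle (v0 := v0) hX hs hsb hA'' h3 heY e2.dr
          have q1 := hl A Y
          have q2 := hl A' Y
          have q3 := hl A'' Y
          have q4 := hl A (insert e Y)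
          have q5 := hl A'' (insert e Y)
          have q : (Fm.imp (Z3 (BalX d v0 A Y) (BalX d v0 A' Y) (BalX d v0 A'' Y))
              (Fm.imp (Z3 (BalX d v0 A Y) (Fm.var e) (BalX d v0 A (insert e Y)))
              (Fm.imp (Z3 (BalX d v0 A'' Y) (Fm.var e) (BalX d v0 A'' (insert e Y)))
              (Z3 (BalX d v0 A (insert e Y)) (BalX d v0 A' Y)
                (BalX d v0 A'' (insert e Y)))))).len ≤ s := by
            simp only [len_Z3, hve, show ∀ P Q : Fm V, (Fm.imp P Q).len = P.len + Q.len + 1 from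
              fun _ _ => rfl]
            omega
          obtain ⟨l4, e4, k4⟩ := inf3 (m := 0) e3.dr (s_t13 hX _ _ _ _ _ _)
            (e3.sub (e2.sub k1)) (e3.sub k2) k3 (q.trans hsb) (Or.inl q)
          exact ⟨l4, (((e1.trans e2).trans e3).trans e4).mono hn (by omega), k4⟩
      · have h2 : e ∈ A' := (Finset.mem_union.1 heU).resolve_left h1
        have h3 : e ∈ A'' := by
          rw [h, Finset.mem_symmDiff]
          exact Or.inr ⟨h2, h1⟩
        rw [balX_notMem h1]
        obtain ⟨l2, e2, k2⟩ := balX_toggle (v0 := v0) hX hs hsb hA' h2 heY e1.dr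
        obtain ⟨l3, e3, k3⟩ := balX_toggle (v0 := v0) hX hs hsb hA'' h3 heY e2.dr
        have q1 := hl A Y
        have q2 := hl A' Y
        have q3 := hl A'' Y
        have q4 := hl A' (insert e Y)
        have q5 := hl A'' (insert e Y)
        have q : (Fm.imp (Z3 (BalX d v0 A Y) (BalX d v0 A' Y) (BalX d v0 A'' Y))
            (Fm.imp (Z3 (BalX d v0 A' Y) (Fm.var e) (BalX d v0 A' (insert e Y)))
            (Fm.imp (Z3 (BalX d v0 A'' Y) (Fm.var e) (BalX d v0 A'' (insert e Y)))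
            (Z3 (BalX d v0 A Y) (BalX d v0 A' (insert e Y))
              (BalX d v0 A'' (insert e Y)))))).len ≤ s := by
          simp only [len_Z3, hve, show ∀ P Q : Fm V, (Fm.imp P Q).len = P.len + Q.len + 1 from
            fun _ _ => rfl]
          omega
        obtain ⟨l4, e4, k4⟩ := inf3 (m := 0) e3.dr (s_t23 hX _ _ _ _ _ _)
          (e3.sub (e2.sub k1)) (e3.sub k2) k3 (q.trans hsb) (Or.inl q)
        exact ⟨l4, (((e1.trans e2).trans e3).trans e4).mono hn (by omega), k4⟩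
  obtain ⟨l', e', k'⟩ := key (A ∪ A') (le_refl _)
  rw [balX_eq Finset.subset_union_left, balX_eq Finset.subset_union_right, balX_eq (A := A'')] at k'
  · refine ⟨l', e'.mono ?_ le_rfl, k'⟩
    have h1 := Finset.card_union_le A A'
    have h2 : (A ∪ A').card ≤ 2 * 2 ^ d := by omega
    exact Nat.add_le_add_right (Nat.mul_le_mul_right _ h2) 3
  · rw [h]
    intro e he
    rw [Finset.mem_symmDiff] at he
    rw [Finset.mem_union]
    tauto

end Pool.Agent.H90.UB
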