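import Mathlib
import Pool.Agent.H90.UB.Bal

/-!
# Module STAR: the equation of a vertex

* `chainAll`: for a list `ls` without repetitions and `Y` with `B = Y ∪ ls.toFinset`, disjoint, the
  line `Z3 (Bal d v0 B) (BalX d v0 B Y) (chain v0 ls)`: induction on `ls` (generalising `Y`). `[]`: `Y = B`,
  `s_zzbot`. `e :: ls`: induction hypothesis for `insert e Y`, `balX_toggle`, `s_chain` with `inf2`.
* `star`: `ls = B.toList`, `Y = ∅`, `BalX d v0 B ∅ = T d fun _ => bot v0` (`balX_empty`), `ex_nbot`,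
  `s_star` with `inf3`. At most `B.card * (2 * d + 4) + 6` lines.
* `clauses`: the axiom `imps Cs (sgn c (chain v0 ls))` is a tautology (`eval_sgn`) of length at most
  `ℓ` (`len_imps_le`, `len_chain`), so it is in `X` by `Full.taut`; then the clauses (`ex_ax`, one line
  each) and `infs`.
-/

set_option autoImplicit false
set_option linter.unusedSectionVars false

namespace Pool.Agent.H90.UB

open Finset Pool.Agent.H3.Frg Pool.Agent.H3.Frg2 Pool.Agent.H3.Frg4

variable {V : Type} [DecidableEq V] {X : Set (Fm V)} {s b : ℕ} {d : ℕ} {v0 : V}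

private theorem chainAll (hX : Full 1000 X) (hs : 1000 * 4 ^ d ≤ s) (hsb : s ≤ b) {B : Finset V}
    (hB : B.card ≤ 2 ^ d) (hc : 100 * 2 ^ B.card ≤ s) : ∀ (ls : List V) (Y : Finset V),
    ls.Nodup → (∀ e ∈ ls, e ∉ Y) → Y ∪ ls.toFinset = B → ∀ l : List (Fm V), Dr X l →
    ∃ l', Ex X s b (ls.length * (2 * d + 4) + 1) 0 l l' ∧
      Z3 (Bal d v0 B) (BalX d v0 B Y) (chain v0 ls) ∈ l' := by
  intro ls
  induction ls with
  | nil =>
    intro Y _ _ hY l hl
    have hYB : Y = B := by simpa using hY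
    subst hYB
    have h1 := s_zzbot hX v0 (Bal d v0 Y)
    have h2 := bal_len d v0 Y
    have h3 : (Z3 (Bal d v0 Y) (Bal d v0 Y) (bot v0)).len ≤ s := by
      rw [len_Z3, len_bot]
      omega
    obtain ⟨l', e1, k1⟩ := ex_ax (s := s) (b := b) (m := 0) hl h1 (h3.trans hsb) (Or.inl h3)
    exact ⟨l', e1.mono (by simp) le_rfl, k1⟩
  | cons e ls ih =>
    intro Y hnd hdis hY l hl
    rw [List.nodup_cons] at hnd
    have heY : e ∉ Y := hdis e List.mem_cons_self
    have heB : e ∈ B := by
      rw [← hY]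
      simp
    have hY' : insert e Y ∪ ls.toFinset = B := by
      rw [← hY]
      ext z
      simp only [mem_union, mem_insert, List.toFinset_cons]
      tauto
    obtain ⟨l1, e1, k1⟩ := ih (insert e Y) hnd.2 (by
      intro f hf h
      rw [mem_insert] at h
      rcases h with h | h
      · exact hnd.1 (h ▸ hf)
      · exact hdis f (List.mem_cons_of_mem _ hf) h) hY' l hl
    obtain ⟨l2, e2, k2⟩ := balX_toggle (v0 := v0) hX hs hsb hB heB heY e1.dr
    have hcard : (e :: ls).length ≤ B.card := by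
      have h4 : (e :: ls).toFinset ⊆ B := by
        rw [← hY]
        exact subset_union_right
      have h5 := card_le_card h4
      rw [List.toFinset_card_of_nodup (List.nodup_cons.2 hnd)] at h5
      exact h5
    have hlc := len_chain v0 (e :: ls)
    have hpow : (2 : ℕ) ^ (e :: ls).length ≤ 2 ^ B.card := Nat.pow_le_pow_right (by norm_num) hcard
    have q1 := bal_len d v0 B
    have q2 := balX_len d v0 B Y
    have q3 := balX_len d v0 B (insert e Y)
    have hlen : (Fm.imp (Z3 (Bal d v0 B) (BalX d v0 B (insert e Y)) (chain v0 ls))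
        (Fm.imp (Z3 (BalX d v0 B Y) (Fm.var e) (BalX d v0 B (insert e Y)))
          (Z3 (Bal d v0 B) (BalX d v0 B Y) (xo (Fm.var e) (chain v0 ls))))).len ≤ s := by
      simp only [chain, len_xo] at hlc
      simp only [Fm.len, len_Z3, len_xo] at hlc ⊢
      generalize (chain v0 ls).len = c1 at *
      generalize (Bal d v0 B).len = p at *
      generalize (BalX d v0 B Y).len = r at *
      generalize (BalX d v0 B (insert e Y)).len = t at *
      generalize 4 ^ d = D at *
      generalize 2 ^ B.card = E at *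
      generalize 2 ^ (e :: ls).length = F at *
      omega
    obtain ⟨l3, e3, k3⟩ := inf2 (s := s) (b := b) (m := 0) e2.dr
      (s_chain hX (Bal d v0 B) (BalX d v0 B (insert e Y)) (chain v0 ls) (Fm.var e) (BalX d v0 B Y))
      (e2.sub k1) k2 (hlen.trans hsb) (Or.inl hlen)
    refine ⟨l3, ((e1.trans e2).trans e3).mono ?_ (by omega), k3⟩
    rw [List.length_cons]
    have : (ls.length + 1) * (2 * d + 4) = ls.length * (2 * d + 4) + (2 * d + 4) := by ring
    omega

theorem star (hX : Full 1000 X) (hs : 1000 * 4 ^ d ≤ s) (hsb : s ≤ b) {B : Finset V}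
    (hB : B.card ≤ 2 ^ d) (hc : 100 * 2 ^ B.card ≤ s) (c : Bool) {l : List (Fm V)} (hl : Dr X l)
    (h : sgn c (chain v0 B.toList) ∈ l) :
    ∃ l', Ex X s b (B.card * (2 * d + 4) + 6) 0 l l' ∧ sgn c (Bal d v0 B) ∈ l' := by
  obtain ⟨l1, e1, k1⟩ := chainAll (v0 := v0) hX hs hsb hB hc B.toList ∅ B.nodup_toList
    (fun e _ => notMem_empty e) (by rw [empty_union, toList_toFinset]) l hl
  obtain ⟨l2, e2, k2⟩ := ex_nbot (v0 := v0) hX hs hsb e1.dr
  rw [← balX_empty B] at k2
  have hlc := len_chain v0 B.toList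
  rw [length_toList] at hlc
  have q1 := bal_len d v0 B
  have q2 := balX_len d v0 B ∅
  have q3 := len_sgn_le c (chain v0 B.toList)
  have q4 := len_sgn_le c (Bal d v0 B)
  have hlen : (Fm.imp (Z3 (Bal d v0 B) (BalX d v0 B ∅) (chain v0 B.toList))
      (Fm.imp (Fm.neg (BalX d v0 B ∅)) (Fm.imp (sgn c (chain v0 B.toList))
        (sgn c (Bal d v0 B))))).len ≤ s := by
    simp only [Fm.len, len_Z3]
    generalize (chain v0 B.toList).len = c1 at *
    generalize (sgn c (chain v0 B.toList)).len = c2 at *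
    generalize (sgn c (Bal d v0 B)).len = c3 at *
    generalize (Bal d v0 B).len = p at *
    generalize (BalX d v0 B ∅).len = r at *
    generalize 4 ^ d = D at *
    generalize 2 ^ B.card = E at *
    omega
  obtain ⟨l3, e3, k3⟩ := inf3 (s := s) (b := b) (m := 0) e2.dr
    (s_star hX c (Bal d v0 B) (BalX d v0 B ∅) (chain v0 B.toList))
    (e2.sub k1) k2 (e2.sub (e1.sub h)) (hlen.trans hsb) (Or.inl hlen)
  refine ⟨l3, ((e1.trans e2).trans e3).mono ?_ (by omega), k3⟩
  rw [length_toList]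

private theorem eval_imps (x : V → Bool) (B : Fm V) : ∀ Ps : List (Fm V),
    ((∀ A ∈ Ps, A.eval x = true) → B.eval x = true) → (imps Ps B).eval x = true := by
  intro Ps
  induction Ps with
  | nil =>
    intro h
    exact h (by simp)
  | cons A Ps ih =>
    intro h
    simp only [imps, Fm.eval]
    cases hA : A.eval x
    · rfl
    · have := ih (fun h' => h (by
        intro C hC
        rcases List.mem_cons.1 hC with rfl | hC
        · exact hA
        · exact h' C hC))
      simp [this]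

private theorem addAll {q : ℕ} (hqs : q ≤ s) (hsb : s ≤ b) : ∀ (Cs : List (Fm V)),
    (∀ A ∈ Cs, A ∈ X) → (∀ A ∈ Cs, A.len ≤ q) → ∀ l : List (Fm V), Dr X l →
    ∃ l', Ex X s b Cs.length 0 l l' ∧ ∀ A ∈ Cs, A ∈ l' := by
  intro Cs
  induction Cs with
  | nil =>
    intro _ _ l hl
    exact ⟨l, Ex.refl hl _ _ _ _, by simp⟩
  | cons A Cs ih =>
    intro hX hq l hl
    obtain ⟨l1, e1, k1⟩ := ih (fun C hC => hX C (List.mem_cons_of_mem _ hC))
      (fun C hC => hq C (List.mem_cons_of_mem _ hC)) l hl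
    have hA : A.len ≤ s := (hq A List.mem_cons_self).trans hqs
    obtain ⟨l2, e2, k2⟩ := ex_ax (s := s) (b := b) (m := 0) e1.dr (hX A List.mem_cons_self)
      (hA.trans hsb) (Or.inl hA)
    refine ⟨l2, (e1.trans e2).mono (by simp) (by omega), ?_⟩
    intro C hC
    rcases List.mem_cons.1 hC with rfl | hC
    · exact k2
    · exact e2.sub (k1 C hC)

theorem clauses {ℓ : ℕ} (hX : Full ℓ X) (f : V → ℕ) (g : ℕ → V) (hgf : ∀ v, g (f v) = v)
    {q : ℕ} (Cs : List (Fm V)) (hCX : ∀ A ∈ Cs, A ∈ X) (hCq : ∀ A ∈ Cs, A.len ≤ q)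
    (ls : List V) (c : Bool)
    (hC : ∀ x, (∀ A ∈ Cs, A.eval x = true) → (chain v0 ls).eval x = c)
    (hℓ : Cs.length * (q + 1) + 10 * 2 ^ ls.length ≤ ℓ) (hℓs : ℓ ≤ s) (hsb : s ≤ b)
    {l : List (Fm V)} (hl : Dr X l) :
    ∃ l', Ex X s b (2 * Cs.length + 1) 0 l l' ∧ sgn c (chain v0 ls) ∈ l' := by
  have h1 : (imps Cs (sgn c (chain v0 ls))).len ≤ ℓ := by
    have h2 := len_imps_le Cs (sgn c (chain v0 ls)) hCq
    have h3 := len_sgn_le c (chain v0 ls)
    have h4 := len_chain v0 ls
    generalize Cs.length * (q + 1) = z at *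
    generalize 2 ^ ls.length = w at *
    omega
  have h2 : imps Cs (sgn c (chain v0 ls)) ∈ X := by
    refine hX.taut f g hgf h1 (fun x => ?_)
    refine eval_imps x _ Cs (fun h => ?_)
    exact (eval_sgn c _ x).2 (hC x h)
  have h3 : ∃ l', Ex X s b Cs.length 0 l l' ∧ ∀ A ∈ Cs, A ∈ l' := by
    rcases Nat.eq_zero_or_pos Cs.length with h0 | h0
    · have : Cs = [] := List.length_eq_zero_iff.1 h0
      subst this
      exact ⟨l, Ex.refl hl _ _ _ _, by simp⟩
    · refine addAll (q := q) ?_ hsb Cs hCX hCq l hl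
      have : 1 * (q + 1) ≤ Cs.length * (q + 1) := Nat.mul_le_mul_right _ h0
      omega
  obtain ⟨l1, e1, k1⟩ := h3
  obtain ⟨l2, e2, k2⟩ := infs (s := s) (b := b) (m := 0) Cs e1.dr h2 k1
    (h1.trans (hℓs.trans hsb)) (Or.inl (h1.trans hℓs))
  exact ⟨l2, (e1.trans e2).mono (by omega) (by omega), k2⟩

end Pool.Agent.H90.UB
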