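import Mathlib
import Pool.Agent.H90.UB.Xo
import Pool.Agent.H3.Frg4.FixedC

set_option autoImplicit false
set_option linter.unusedSectionVars false

/-!
# Module CONN: the clauses of the graph are a system of linear equations

The hypotheses are those of the proof of `fixedP` (H90/PC/Fix.lean), `ψ : E ≃ Fin (Fintype.card E)`.

* `ne = Fintype.card E`, `hh = Nat.clog 2 (Fintype.card Wv)` (so `N ≤ 2 ^ hh ≤ 2 * N`, see `hd2` in `fixedP`),
  `C' i = (C0 i).ren ψ`, so `C i = (C' i).ren Fin.val` (`ren_ren`).
* Let `w : Fin N ≃ Wv` be the enumeration of the vertices (`Fintype.equivFin`). For `v < N`: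
  `inc v = (bd src tgt {w v}).map ψ` (or `image`), `ch v = sgn3 v1 (w v)` or its negation: choose the Boolean
  `ch v` such that `chi (bd src tgt {w v}) x = sg (sgn3 v1 (w v))` iff the number of `e ∈ bd src tgt {w v}` with
  `x e = true` is odd (`ch v = true`) or even (`ch v = false`). For `v ≥ N`: `inc v = ∅`, `ch v = false`, `I = []`.
* `SD inc hh 0`: an element `e` is in `SD inc h v` iff the number of `u ∈ [v, v + 2 ^ h)` with `e ∈ inc u` is odd
  (induction on `h`). Every edge is in exactly two of the `inc u` (no loops: `hG.loopless`;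
  `mem_bd`). `CD ch h v` is the sum modulo 2 of the `ch u` (induction on `h`), and
  `∏ v, sg (sgn3 v1 v) = -1` (see `exists_Idx` in `H3/Frg4/Cnf.lean`): only for `v1` the sign is `-1`. (`sg` and
  `chi` are defined in `H3/Frg`; `sg b` is `-1` for `b = true` or `false`, look.)
* The clauses of the vertex `w v`: `I` = list of indices `i` with `idx i = ⟨w v, U⟩`, `U ⊆ bd src tgt {w v}` one of
  the at most `2 ^ Dm` forbidden assignments (one index for each `U`). If all these clauses are true for
  `x` then `chi (bd src tgt {w v}) x = sg (sgn3 v1 (w v))`: otherwise `U = {e ∈ bd | x e = true}` is forbidden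
  (as in `exists_Idx`) and its clause is false (`clp_spec`). `eval_chain`: the value of the chain is
  the parity of the number of true variables.
-/

namespace Pool.Agent.H90.UB

open Finset Pool.Agent.H3.Frg Pool.Agent.H3.Frg2 Pool.Agent.H3.Frg3 Pool.Agent.H3.Frg4

private theorem sg_xor (a c : Bool) : sg (xor a c) = sg a * sg c := by
  cases a <;> cases c <;> simp [sg]

private theorem sg_inj {a c : Bool} (h : sg a = sg c) : a = c := by
  cases a <;> cases c <;> simp_all [sg] <;> norm_num at h

private theorem sg_chain {V : Type} (v0 : V) (x : V → Bool) : ∀ l : List V,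
    sg ((chain v0 l).eval x) = (l.map fun e => sg (x e)).prod := by
  intro l
  induction l with
  | nil =>
    have h : (chain v0 []).eval x = false := eval_bot v0 x
    rw [h]; simp [sg]
  | cons e l ih =>
    simp only [chain, eval_xo, sg_xor, List.map_cons, List.prod_cons, ih, Fm.eval]

private theorem sg_CD (ch : ℕ → Bool) (h : ℕ) : ∀ v,
    sg (CD ch h v) = ∏ u ∈ Finset.range (2 ^ h), sg (ch (v + u)) := by
  induction h with
  | zero => intro v; simp [CD]
  | succ h ih =>
    intro v
    simp only [CD]
    rw [sg_xor, ih, ih, pow_succ, mul_two, Finset.prod_range_add]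
    congr 1
    exact Finset.prod_congr rfl fun u _ => by rw [add_assoc]

private def mm {V : Type} [DecidableEq V] (e : V) (A : Finset V) : Bool := decide (e ∈ A)

private theorem mm_true {V : Type} [DecidableEq V] {e : V} {A : Finset V} (h : e ∈ A) :
    mm e A = true := by
  unfold mm; exact decide_eq_true h

private theorem mm_false {V : Type} [DecidableEq V] {e : V} {A : Finset V} (h : e ∉ A) :
    mm e A = false := by
  unfold mm; exact decide_eq_false h

private theorem mm_symm {V : Type} [DecidableEq V] (e : V) (A B : Finset V) :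
    mm e (symmDiff A B) = xor (mm e A) (mm e B) := by
  by_cases h2 : e ∈ A <;> by_cases h3 : e ∈ B
  · rw [mm_true h2, mm_true h3, mm_false (by simp [Finset.mem_symmDiff, h2, h3])]; rfl
  · rw [mm_true h2, mm_false h3, mm_true (by simp [Finset.mem_symmDiff, h2, h3])]; rfl
  · rw [mm_false h2, mm_true h3, mm_true (by simp [Finset.mem_symmDiff, h2, h3])]; rfl
  · rw [mm_false h2, mm_false h3, mm_false (by simp [Finset.mem_symmDiff, h2, h3])]; rfl

private theorem sg_SD {V : Type} [DecidableEq V] (inc : ℕ → Finset V) (e : V) (h : ℕ) : ∀ v,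
    sg (mm e (SD inc h v)) = ∏ u ∈ Finset.range (2 ^ h), sg (mm e (inc (v + u))) := by
  induction h with
  | zero => intro v; rw [pow_zero, Finset.prod_range_one]; rfl
  | succ h ih =>
    intro v
    have h1 : SD inc (h + 1) v = symmDiff (SD inc h v) (SD inc h (v + 2 ^ h)) := rfl
    rw [h1, mm_symm, sg_xor, ih, ih, pow_succ, mul_two, Finset.prod_range_add]
    congr 1
    exact Finset.prod_congr rfl fun u _ => by rw [add_assoc]

private theorem prod_sgn {Wv : Type} [Fintype Wv] [DecidableEq Wv] (v1 : Wv) :
    ∏ v : Wv, sg (sgn3 v1 v) = -1 := by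
  rw [Finset.prod_eq_single v1]
  · simp [sgn3, sg]
  · intro v _ hv
    simp [sgn3, sg, hv]
  · intro h; exact absurd (mem_univ _) h

/-- products over the vertices -/
private theorem prod_pad {Wv : Type} [Fintype Wv] {m : ℕ} (hm : Fintype.card Wv ≤ m)
    (w : Fin (Fintype.card Wv) ≃ Wv) (G : Wv → ℝ) (F : ℕ → ℝ)
    (h1 : ∀ (u : ℕ) (h : u < Fintype.card Wv), F u = G (w ⟨u, h⟩))
    (h2 : ∀ u, Fintype.card Wv ≤ u → F u = 1) :
    ∏ u ∈ Finset.range m, F u = ∏ v : Wv, G v := by
  have h3 : ∏ u ∈ Finset.range m, F u = ∏ u ∈ Finset.range (Fintype.card Wv), F u := by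
    symm
    refine Finset.prod_subset (Finset.range_subset_range.2 hm) fun u _ hu => ?_
    rw [Finset.mem_range, not_lt] at hu
    exact h2 u hu
  rw [h3, Finset.prod_range, ← Equiv.prod_comp w]
  exact Finset.prod_congr rfl fun u _ => h1 u u.isLt

theorem graph_ubp {E Wv : Type} [Fintype E] [DecidableEq E] [Fintype Wv] [DecidableEq Wv]
    {src tgt : E → Wv} {Dm : ℕ} (_hloop : ∀ e, src e ≠ tgt e)
    (hdeg : ∀ v, (bd src tgt {v}).card ≤ Dm) (hne : ∀ v, (bd src tgt {v}).Nonempty)
    (hcE : Fintype.card E ≤ Dm * Fintype.card Wv) (v1 : Wv) (v0 : E)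
    (ψ : E ≃ Fin (Fintype.card E)) (idx : ℕ → (Σ _ : Wv, Finset E))
    (hidx : ∀ p ∈ Idx src tgt v1, ∃ i, idx i = p) :
    UBP Dm (Fintype.card Wv) (fun i => (clp src tgt v0 (idx i)).ren fun e => ((ψ e : Fin _) : ℕ)) := by
  classical
  obtain ⟨N, hN⟩ : ∃ N, N = Fintype.card Wv := ⟨_, rfl⟩
  have hN0 : 0 < Fintype.card Wv := Fintype.card_pos_iff.2 ⟨v1⟩
  set w : Fin (Fintype.card Wv) ≃ Wv := (Fintype.equivFin Wv).symm with hw
  set inc : ℕ → Finset (Fin (Fintype.card E)) := fun v =>
    if h : v < Fintype.card Wv then (bd src tgt {w ⟨v, h⟩}).map ψ.toEmbedding else ∅ with hinc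
  set ch : ℕ → Bool := fun v =>
    if h : v < Fintype.card Wv then sgn3 v1 (w ⟨v, h⟩) else false with hch
  have hhh : Fintype.card Wv ≤ 2 ^ Nat.clog 2 (Fintype.card Wv) :=
    Nat.le_pow_clog (by norm_num) _
  have hsp := fun i => clp_spec hdeg hne v0 (idx i)
  refine ⟨Fintype.card E, Nat.clog 2 (Fintype.card Wv), ψ v0,
    fun i => (clp src tgt v0 (idx i)).ren ψ, inc, ch, hcE, hhh, ?_, ?_, ?_, ?_, ?_, ?_, ?_⟩
  · rcases Nat.lt_or_ge 1 (Fintype.card Wv) with h | h
    · have h3 : 2 ^ (Nat.clog 2 (Fintype.card Wv) - 1) < Fintype.card Wv := by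
        have := Nat.pow_pred_clog_lt_self (b := 2) (by norm_num) h
        simpa using this
      have h4 : 0 < Nat.clog 2 (Fintype.card Wv) := Nat.clog_pos (by norm_num) h
      calc 2 ^ Nat.clog 2 (Fintype.card Wv) = 2 * 2 ^ (Nat.clog 2 (Fintype.card Wv) - 1) := by
            rw [← pow_succ']; congr 1; omega
        _ ≤ 2 * Fintype.card Wv := by omega
    · have h3 : Fintype.card Wv = 1 := by omega
      rw [h3]
      simp
  · intro i
    rw [ren_ren]
  · intro i
    rw [len_ren]
    exact (hsp i).2.1
  · intro v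
    simp only [hinc]
    split_ifs with h
    · rw [Finset.card_map]; exact hdeg _
    · simp
  · -- every edge is in two sets
    rw [Finset.eq_empty_iff_forall_notMem]
    intro e he
    have h1 := sg_SD inc e (Nat.clog 2 (Fintype.card Wv)) 0
    rw [mm_true he] at h1
    have h2 : ∏ u ∈ Finset.range (2 ^ Nat.clog 2 (Fintype.card Wv)),
        sg (mm e (inc (0 + u))) = ∏ v : Wv, (sg (sgn3 (src (ψ.symm e)) v) *
          sg (sgn3 (tgt (ψ.symm e)) v)) := by
      refine prod_pad hhh w _ _ (fun u hu => ?_) (fun u hu => ?_)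
      · rw [zero_add]
        simp only [hinc, dif_pos hu]
        rw [← sg_xor]
        congr 1
        have h3 : e ∈ (bd src tgt {w ⟨u, hu⟩}).map ψ.toEmbedding ↔
            ¬ (src (ψ.symm e) = w ⟨u, hu⟩ ↔ tgt (ψ.symm e) = w ⟨u, hu⟩) := by
          rw [Finset.mem_map]
          constructor
          · rintro ⟨a, ha, rfl⟩
            rw [mem_bd, mem_singleton, mem_singleton] at ha
            simpa using ha
          · intro h4
            refine ⟨ψ.symm e, ?_, by simp⟩
            rw [mem_bd, mem_singleton, mem_singleton]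
            exact h4
        unfold sgn3
        by_cases h4 : src (ψ.symm e) = w ⟨u, hu⟩ <;> by_cases h5 : tgt (ψ.symm e) = w ⟨u, hu⟩
        · rw [mm_false (fun h6 => (h3.1 h6) (by simp [h4, h5])), decide_eq_true h4.symm,
            decide_eq_true h5.symm]; rfl
        · rw [mm_true (h3.2 (by simp [h4, h5])), decide_eq_true h4.symm,
            decide_eq_false (fun h6 => h5 h6.symm)]; rfl
        · rw [mm_true (h3.2 (by simp [h4, h5])), decide_eq_true h5.symm,
            decide_eq_false (fun h6 => h4 h6.symm)]; rfl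
        · rw [mm_false (fun h6 => (h3.1 h6) (by simp [h4, h5])),
            decide_eq_false (fun h6 => h4 h6.symm), decide_eq_false (fun h6 => h5 h6.symm)]; rfl
      · rw [zero_add]
        simp only [hinc, dif_neg (not_lt.2 hu)]
        rw [mm_false (Finset.notMem_empty _)]
        simp [sg]
    rw [h2, Finset.prod_mul_distrib, prod_sgn, prod_sgn] at h1
    simp only [sg] at h1
    norm_num at h1
  · have h1 := sg_CD ch (Nat.clog 2 (Fintype.card Wv)) 0
    have h2 : ∏ u ∈ Finset.range (2 ^ Nat.clog 2 (Fintype.card Wv)), sg (ch (0 + u)) =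
        ∏ v : Wv, sg (sgn3 v1 v) := by
      refine prod_pad hhh w _ _ (fun u hu => ?_) (fun u hu => ?_)
      · rw [zero_add]
        simp only [hch, dif_pos hu]
      · rw [zero_add]
        simp only [hch, dif_neg (not_lt.2 hu)]
        simp [sg]
    rw [h2, prod_sgn] at h1
    apply sg_inj
    rw [h1]
    simp [sg]
  · intro v
    by_cases hv : v < Fintype.card Wv
    · set B := bd src tgt {w ⟨v, hv⟩} with hB
      set P := B.powerset.filter (fun U => chi B (Pool.Agent.H3.Frg4.ind U) ≠ sg (sgn3 v1 (w ⟨v, hv⟩))) with hP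
      have hj : ∀ U ∈ P, ∃ i, idx i = ⟨w ⟨v, hv⟩, U⟩ := by
        intro U hU
        refine hidx _ ?_
        unfold Idx
        rw [Finset.mem_sigma]
        refine ⟨mem_univ _, ?_⟩
        rw [hP, Finset.mem_filter] at hU
        rw [Finset.mem_filter]
        exact hU
      choose! j hj using hj
      refine ⟨P.toList.map j, ?_, fun x hx => ?_⟩
      · rw [List.length_map, Finset.length_toList]
        refine (Finset.card_filter_le _ _).trans ?_
        rw [Finset.card_powerset]
        exact Nat.pow_le_pow_right (by norm_num) (hdeg _)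
      · have hchi : chi B (fun e => x (ψ e)) = sg (sgn3 v1 (w ⟨v, hv⟩)) := by
          by_contra hcon
          set U := B.filter (fun e => x (ψ e) = true) with hU
          have h1 : ∀ e ∈ B, x (ψ e) = Pool.Agent.H3.Frg4.ind U e := by
            intro e he
            unfold Pool.Agent.H3.Frg4.ind
            rw [hU]
            simp only [Finset.mem_filter, he, true_and]
            cases x (ψ e) <;> simp
          have hUP : U ∈ P := by
            rw [hP, Finset.mem_filter, Finset.mem_powerset]
            refine ⟨Finset.filter_subset _ _, ?_⟩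
            rw [← chi_congr' h1]
            exact hcon
          have h2 := hx (j U) (List.mem_map.2 ⟨U, Finset.mem_toList.2 hUP, rfl⟩)
          rw [eval_ren, (hsp (j U)).2.2.2, hj U hUP] at h2
          obtain ⟨e, he, h3⟩ := h2
          exact h3 (h1 e he)
        apply sg_inj
        rw [sg_chain, Finset.prod_map_toList]
        simp only [hinc, hch, dif_pos hv]
        rw [Finset.prod_map]
        exact hchi
    · refine ⟨[], by simp, fun x _ => ?_⟩
      simp only [hinc, hch, dif_neg hv, Finset.toList_empty]
      exact eval_bot _ x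

end Pool.Agent.H90.UB
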