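import Mathlib
import Pool.Agent.H90.UB.Bal

set_option autoImplicit false
set_option linter.unusedSectionVars false

/-!
# Module TRIE: the sum of two parity formulas for large sets

`K1 d` = number of lines of one `baladd` (three of them) and the five premises.

* `TS_small`: cases on `g`. `TS_len`: induction on `g` with `bal_len`, `len_xo`:
  `len + 2 ≤ 4 ^ g * (4 ^ d * 6)`.
* `conv`: if `A.card ≤ 2 ^ d` all three formulas are `Bal` (`TS_small`, a filter of `A` is not larger) and
  `A` is the symmetric difference of its two parts, so `baladd`, no long line; otherwise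
  `TS (g + 1) A` is the `xo` and `s_zxo` is one line.
* `trieadd`: induction on `g` for all `A`, `A'`. Let `t = A.card + A'.card`, `A'' = symmDiff A A'` (card
  `≤ t`). If `t ≤ 2 ^ d`: `baladd` (all three are `Bal` by `TS_small`), no long line, and the left side
  of the bound on `m` is `0`. Otherwise, if `g = 0`: by `hinv` and injectivity of `pos` the set
  `A ∪ A'` has at most one element, so `A.card ≤ 1`, `A'.card ≤ 1`, `A''.card ≤ 1 ≤ 2 ^ d`, again `baladd`
  (`TS … 0 = Bal` by definition) and `m = 0`. If `g + 1`: the induction hypothesis for the filters with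
  bit `g` false and true (the symmetric difference commutes with the filter; `pos / 2 ^ g` is
  constant on the filters because `pos / 2 ^ (g + 1)` and the bit `g` are), three times `conv`, then
  `s_add5` with `infs` (6 lines, all possibly long). Long lines: `m = m₀ + m₁ + 9`;
  `2 ^ d * 9 ≤ 9 * t` because `2 ^ d < t`. `mt d t = if t ≤ 2 ^ d then 0 else t` is superadditive.
-/

namespace Pool.Agent.H90.UB

open Finset Pool.Agent.H3.Frg Pool.Agent.H3.Frg2 Pool.Agent.H3.Frg4

variable {V : Type} [DecidableEq V] {X : Set (Fm V)} {s b : ℕ} {d : ℕ} {v0 : V} {pos : V → ℕ}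

/-- lines for one node -/
def K1 (d : ℕ) : ℕ := 3 * (2 * 2 ^ d * (4 * d + 6) + 3) + 6

/-- size of a large set -/
def mt (d t : ℕ) : ℕ := if t ≤ 2 ^ d then 0 else t

theorem TS_small (g : ℕ) {A : Finset V} (h : A.card ≤ 2 ^ d) :
    TS d v0 pos g A = Bal d v0 A := by
  cases g with
  | zero => rfl
  | succ g => simp only [TS, if_pos h]

theorem TS_len (g : ℕ) : ∀ A : Finset V, (TS d v0 pos g A).len + 2 ≤ 4 ^ g * (4 ^ d * 6) := by
  induction g with
  | zero =>
    intro A
    have := bal_len d v0 A
    simpa [TS] using this
  | succ g ih =>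
    intro A
    have h1 : 4 ^ (g + 1) * (4 ^ d * 6) = 4 * (4 ^ g * (4 ^ d * 6)) := by ring
    simp only [TS]
    split_ifs with h
    · have h2 := bal_len d v0 A
      have h3 : 1 * (4 ^ d * 6) ≤ 4 ^ (g + 1) * (4 ^ d * 6) :=
        Nat.mul_le_mul_right _ (Nat.one_le_pow _ _ (by norm_num))
      omega
    · have h2 := ih (A.filter fun e => (pos e).testBit g = false)
      have h3 := ih (A.filter fun e => (pos e).testBit g = true)
      rw [len_xo]
      omega

private theorem filt_symm (A : Finset V) (g : ℕ) :
    A = symmDiff (A.filter fun e => (pos e).testBit g = false)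
      (A.filter fun e => (pos e).testBit g = true) := by
  ext e
  rw [Finset.mem_symmDiff, Finset.mem_filter, Finset.mem_filter]
  cases h : (pos e).testBit g <;> simp

theorem conv (hX : Full 1000 X) (hs : 1000 * 4 ^ d ≤ s) (hsb : s ≤ b) (g : ℕ)
    (hb : 1000 * (4 ^ (g + 1) * 4 ^ d) ≤ b) (A : Finset V) {l : List (Fm V)} (hl : Dr X l) :
    ∃ l', Ex X s b (2 * 2 ^ d * (4 * d + 6) + 3) (if A.card ≤ 2 ^ d then 0 else 1) l l' ∧
      Z3 (TS d v0 pos g (A.filter fun e => (pos e).testBit g = false))
        (TS d v0 pos g (A.filter fun e => (pos e).testBit g = true)) (TS d v0 pos (g + 1) A) ∈ l' := by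
  by_cases h : A.card ≤ 2 ^ d
  · have h1 : (A.filter fun e => (pos e).testBit g = false).card ≤ 2 ^ d :=
      (Finset.card_filter_le _ _).trans h
    have h2 : (A.filter fun e => (pos e).testBit g = true).card ≤ 2 ^ d :=
      (Finset.card_filter_le _ _).trans h
    rw [TS_small g h1, TS_small g h2, TS_small (g + 1) h, if_pos h]
    exact baladd hX hs hsb h1 h2 h (filt_symm A g) hl
  · rw [if_neg h]
    have h1 : TS d v0 pos (g + 1) A =
        xo (TS d v0 pos g (A.filter fun e => (pos e).testBit g = false))
          (TS d v0 pos g (A.filter fun e => (pos e).testBit g = true)) := by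
      simp only [TS, if_neg h]
    rw [h1]
    have h2 := TS_len (d := d) (v0 := v0) (pos := pos) g
      (A.filter fun e => (pos e).testBit g = false)
    have h3 := TS_len (d := d) (v0 := v0) (pos := pos) g
      (A.filter fun e => (pos e).testBit g = true)
    have h4 : 4 ^ (g + 1) * 4 ^ d = 4 * (4 ^ g * 4 ^ d) := by ring
    have h5 : 4 ^ g * (4 ^ d * 6) = 6 * (4 ^ g * 4 ^ d) := by ring
    obtain ⟨l', e', k'⟩ := ex_ax (m := 1) (s := s) (b := b) hl
      (s_zxo hX (TS d v0 pos g (A.filter fun e => (pos e).testBit g = false))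
        (TS d v0 pos g (A.filter fun e => (pos e).testBit g = true)))
      (by rw [len_Z3, len_xo]; omega) (Or.inr le_rfl)
    exact ⟨l', e'.mono (by omega) le_rfl, k'⟩

private theorem mt_add (d a a' : ℕ) : mt d a + mt d a' ≤ mt d (a + a') := by
  unfold mt
  split_ifs <;> omega

private theorem filt_card (A : Finset V) (g : ℕ) :
    (A.filter fun e => (pos e).testBit g = false).card +
      (A.filter fun e => (pos e).testBit g = true).card = A.card := by
  rw [← Finset.card_union_of_disjoint]
  · congr 1
    ext e
    rw [Finset.mem_union, Finset.mem_filter, Finset.mem_filter]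
    cases h : (pos e).testBit g <;> simp
  · rw [Finset.disjoint_left]
    intro e h1 h2
    rw [Finset.mem_filter] at h1 h2
    rw [h1.2] at h2
    exact absurd h2.2 (by simp)

private theorem filt_sd (A A' : Finset V) (g : ℕ) (c : Bool) :
    (symmDiff A A').filter (fun e => (pos e).testBit g = c) =
      symmDiff (A.filter fun e => (pos e).testBit g = c)
        (A'.filter fun e => (pos e).testBit g = c) := by
  ext e
  simp only [Finset.mem_symmDiff, Finset.mem_filter]
  tauto

private theorem div_of_bit {a a' g : ℕ} (h1 : a / 2 ^ (g + 1) = a' / 2 ^ (g + 1))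
    (h2 : a.testBit g = a'.testBit g) : a / 2 ^ g = a' / 2 ^ g := by
  rw [pow_succ, ← Nat.div_div_eq_div_mul, ← Nat.div_div_eq_div_mul] at h1
  rw [Nat.testBit_eq_decide_div_mod_eq, Nat.testBit_eq_decide_div_mod_eq,
    decide_eq_decide] at h2
  omega

private theorem card_sd_le (A A' : Finset V) : (symmDiff A A').card ≤ A.card + A'.card := by
  refine (Finset.card_le_card ?_).trans (Finset.card_union_le A A')
  intro e he
  rw [Finset.mem_symmDiff] at he
  rw [Finset.mem_union]
  tauto

theorem trieadd (hX : Full 1000 X) (hs : 1000 * 4 ^ d ≤ s) (hsb : s ≤ b)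
    (hpos : Function.Injective pos) (g : ℕ) (hb : 1000 * (4 ^ g * 4 ^ d) ≤ b) :
    ∀ (A A' A'' : Finset V), A'' = symmDiff A A' →
    (∀ e ∈ A ∪ A', ∀ e' ∈ A ∪ A', pos e / 2 ^ g = pos e' / 2 ^ g) →
    ∀ l : List (Fm V), Dr X l →
    ∃ (n m : ℕ) (l' : List (Fm V)), Ex X s b n m l l' ∧
      n + K1 d ≤ 2 ^ (g + 1) * K1 d ∧ 2 ^ d * m ≤ 9 * g * mt d (A.card + A'.card) ∧
      Z3 (TS d v0 pos g A) (TS d v0 pos g A') (TS d v0 pos g A'') ∈ l' := by
  have hsmall : ∀ (g : ℕ) (A A' A'' : Finset V), A'' = symmDiff A A' → A.card ≤ 2 ^ d →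
      A'.card ≤ 2 ^ d → A''.card ≤ 2 ^ d → ∀ l : List (Fm V), Dr X l →
      ∃ (n m : ℕ) (l' : List (Fm V)), Ex X s b n m l l' ∧
      n + K1 d ≤ 2 ^ (g + 1) * K1 d ∧ 2 ^ d * m ≤ 9 * g * mt d (A.card + A'.card) ∧
      Z3 (TS d v0 pos g A) (TS d v0 pos g A') (TS d v0 pos g A'') ∈ l' := by
    intro g A A' A'' h h1 h2 h3 l hl
    obtain ⟨l', e', k'⟩ := baladd (v0 := v0) hX hs hsb h1 h2 h3 h hl
    refine ⟨_, 0, l', e', ?_, by simp, ?_⟩
    · have h4 : 2 * K1 d ≤ 2 ^ (g + 1) * K1 d := by
        refine Nat.mul_le_mul_right _ ?_
        calc 2 = 2 ^ 1 := by norm_num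
          _ ≤ 2 ^ (g + 1) := Nat.pow_le_pow_right (by norm_num) (by omega)
      have h5 : 2 * 2 ^ d * (4 * d + 6) + 3 ≤ K1 d := by unfold K1; omega
      omega
    · rw [TS_small g h1, TS_small g h2, TS_small g h3]
      exact k'
  induction g with
  | zero =>
    intro A A' A'' h hinv l hl
    have h1 : ∀ B : Finset V, B ⊆ A ∪ A' → B.card ≤ 2 ^ d := by
      intro B hB
      refine le_trans ?_ (Nat.one_le_two_pow)
      rw [Finset.card_le_one]
      intro e he e' he'
      have := hinv e (hB he) e' (hB he')
      rw [pow_zero, Nat.div_one, Nat.div_one] at this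
      exact hpos this
    refine hsmall 0 A A' A'' h (h1 _ Finset.subset_union_left) (h1 _ Finset.subset_union_right)
      (h1 _ ?_) l hl
    rw [h]
    intro e he
    rw [Finset.mem_symmDiff] at he
    rw [Finset.mem_union]
    tauto
  | succ g ih =>
    intro A A' A'' h hinv l hl
    by_cases ht : A.card + A'.card ≤ 2 ^ d
    · refine hsmall (g + 1) A A' A'' h (by omega) (by omega) ?_ l hl
      rw [h]
      exact (card_sd_le A A').trans ht
    · have hb' : 1000 * (4 ^ g * 4 ^ d) ≤ b := by
        refine le_trans ?_ hb
        exact Nat.mul_le_mul_left _ (Nat.mul_le_mul_right _ (Nat.pow_le_pow_right (by norm_num)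
          (Nat.le_succ g)))
      have hdv : ∀ c : Bool, ∀ e ∈ (A.filter fun e => (pos e).testBit g = c) ∪
          (A'.filter fun e => (pos e).testBit g = c),
          ∀ e' ∈ (A.filter fun e => (pos e).testBit g = c) ∪
          (A'.filter fun e => (pos e).testBit g = c), pos e / 2 ^ g = pos e' / 2 ^ g := by
        intro c e he e' he'
        rw [← Finset.filter_union, Finset.mem_filter] at he he'
        exact div_of_bit (hinv e he.1 e' he'.1) (by rw [he.2, he'.2])
      have hsd : ∀ c : Bool, (A''.filter fun e => (pos e).testBit g = c) =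
          symmDiff (A.filter fun e => (pos e).testBit g = c)
            (A'.filter fun e => (pos e).testBit g = c) := by
        intro c
        rw [h]
        exact filt_sd A A' g c
      obtain ⟨n0, m0, l0, e0, a0, b0, k0⟩ := ih hb' _ _ _ (hsd false) (hdv false) l hl
      obtain ⟨n1, m1, l1, e1, a1, b1, k1⟩ := ih hb' _ _ _ (hsd true) (hdv true) l0 e0.dr
      obtain ⟨l2, e2, k2⟩ := conv (v0 := v0) (pos := pos) hX hs hsb g hb A e1.dr
      obtain ⟨l3, e3, k3⟩ := conv (v0 := v0) (pos := pos) hX hs hsb g hb A' e2.dr
      obtain ⟨l4, e4, k4⟩ := conv (v0 := v0) (pos := pos) hX hs hsb g hb A'' e3.dr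
      have e2' := e2.mono (le_refl _) (show (if A.card ≤ 2 ^ d then 0 else 1) ≤ 1 by
        split_ifs <;> omega)
      have e3' := e3.mono (le_refl _) (show (if A'.card ≤ 2 ^ d then 0 else 1) ≤ 1 by
        split_ifs <;> omega)
      have e4' := e4.mono (le_refl _) (show (if A''.card ≤ 2 ^ d then 0 else 1) ≤ 1 by
        split_ifs <;> omega)
      have hTl := fun B : Finset V => TS_len (d := d) (v0 := v0) (pos := pos) g B
      have hTl' := fun B : Finset V => TS_len (d := d) (v0 := v0) (pos := pos) (g + 1) B
      have c1 : 4 ^ (g + 1) * 4 ^ d = 4 * (4 ^ g * 4 ^ d) := by ring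
      have c2 : 4 ^ g * (4 ^ d * 6) = 6 * (4 ^ g * 4 ^ d) := by ring
      have c3 : 4 ^ (g + 1) * (4 ^ d * 6) = 24 * (4 ^ g * 4 ^ d) := by ring
      simp only [c2] at hTl
      simp only [c3] at hTl'
      rw [c1] at hb
      obtain ⟨l5, e5, k5⟩ := infs (m := 6) (s := s) (b := b)
        [Z3 (TS d v0 pos g (A.filter fun e => (pos e).testBit g = false))
            (TS d v0 pos g (A'.filter fun e => (pos e).testBit g = false))
            (TS d v0 pos g (A''.filter fun e => (pos e).testBit g = false)),
          Z3 (TS d v0 pos g (A.filter fun e => (pos e).testBit g = true))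
            (TS d v0 pos g (A'.filter fun e => (pos e).testBit g = true))
            (TS d v0 pos g (A''.filter fun e => (pos e).testBit g = true)),
          Z3 (TS d v0 pos g (A.filter fun e => (pos e).testBit g = false))
            (TS d v0 pos g (A.filter fun e => (pos e).testBit g = true)) (TS d v0 pos (g + 1) A),
          Z3 (TS d v0 pos g (A'.filter fun e => (pos e).testBit g = false))
            (TS d v0 pos g (A'.filter fun e => (pos e).testBit g = true)) (TS d v0 pos (g + 1) A'),
          Z3 (TS d v0 pos g (A''.filter fun e => (pos e).testBit g = false))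
            (TS d v0 pos g (A''.filter fun e => (pos e).testBit g = true))
            (TS d v0 pos (g + 1) A'')]
        e4.dr (s_add5 hX _ _ _ _ _ _ _ _ _) (by
          intro B hB
          simp only [List.mem_cons, List.not_mem_nil, or_false] at hB
          rcases hB with rfl | rfl | rfl | rfl | rfl
          · exact e4.sub (e3.sub (e2.sub (e1.sub k0)))
          · exact e4.sub (e3.sub (e2.sub k1))
          · exact e4.sub (e3.sub k2)
          · exact e4.sub k3
          · exact k4) (by
          have t1 := hTl (A.filter fun e => (pos e).testBit g = false)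
          have t2 := hTl (A'.filter fun e => (pos e).testBit g = false)
          have t3 := hTl (A''.filter fun e => (pos e).testBit g = false)
          have t4 := hTl (A.filter fun e => (pos e).testBit g = true)
          have t5 := hTl (A'.filter fun e => (pos e).testBit g = true)
          have t6 := hTl (A''.filter fun e => (pos e).testBit g = true)
          have t7 := hTl' A
          have t8 := hTl' A'
          have t9 := hTl' A''
          simp only [imps, len_Z3, show ∀ P Q : Fm V, (Fm.imp P Q).len = P.len + Q.len + 1 from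
            fun _ _ => rfl]
          omega) (Or.inr (by simp))
      refine ⟨_, _, l5, ((((e0.trans e1).trans e2').trans e3').trans e4').trans e5, ?_, ?_, k5⟩
      · have h9 : 2 ^ (g + 1 + 1) * K1 d = 2 * (2 ^ (g + 1) * K1 d) := by ring
        rw [h9]
        simp only [List.length_cons, List.length_nil]
        have h10 : K1 d = 3 * (2 * 2 ^ d * (4 * d + 6) + 3) + 6 := rfl
        omega
      · have h9 : mt d (A.card + A'.card) = A.card + A'.card := by
          unfold mt; rw [if_neg ht]
        have h10 : mt d ((A.filter fun e => (pos e).testBit g = false).card +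
            (A'.filter fun e => (pos e).testBit g = false).card) +
            mt d ((A.filter fun e => (pos e).testBit g = true).card +
            (A'.filter fun e => (pos e).testBit g = true).card) ≤ mt d (A.card + A'.card) := by
          refine (mt_add _ _ _).trans (le_of_eq ?_)
          congr 1
          have f1 := filt_card (pos := pos) A g
          have f2 := filt_card (pos := pos) A' g
          omega
        rw [h9] at h10
        rw [h9]
        generalize mt d ((A.filter fun e => (pos e).testBit g = false).card +
            (A'.filter fun e => (pos e).testBit g = false).card) = x0 at b0 h10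
        generalize mt d ((A.filter fun e => (pos e).testBit g = true).card +
            (A'.filter fun e => (pos e).testBit g = true).card) = x1 at b1 h10
        have h11 : 9 * g * x0 + 9 * g * x1 ≤ 9 * g * (A.card + A'.card) := by
          rw [← mul_add]; exact Nat.mul_le_mul_left _ h10
        have h12 : 2 ^ d * (m0 + m1 + 1 + 1 + 1 + 6) = 2 ^ d * m0 + 2 ^ d * m1 + 9 * 2 ^ d := by
          ring
        rw [h12]
        have h13 : 9 * (g + 1) * (A.card + A'.card) = 9 * g * (A.card + A'.card) +
          9 * (A.card + A'.card) := by ring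
        rw [h13]
        omega

end Pool.Agent.H90.UB
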