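import Mathlib
import Pool.Agent.H90.UB.Trie

set_option autoImplicit false
set_option linter.unusedSectionVars false

/-!
# Module MERGE: binary tree over the vertices

`D' = D * 2 ^ h` bounds the size of `SD inc h v` (`card_SD`, induction, `card (symmDiff) ≤ card + card`).

* `merge`: induction on `h` for all `v`. `h = 0`: `hstar`. `h + 1`: the two induction hypotheses,
  `trieadd` (all `pos e / 2 ^ g = 0`), then `s_merge` with `inf3` (4 lines; they are longer than `s` only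
  if one of the three sets has more than `2 ^ d` elements, otherwise all three formulas are `Bal` of
  length `< 6 * 4 ^ d` and the axiom is shorter than `1000 * 4 ^ d ≤ s`; use `m = 0` in `inf3` if
  `D * 2 ^ (h + 1) ≤ 2 ^ d` and `m = 4` otherwise).
  Long lines: `2 ^ d * m (h + 1) ≤ 2 * (2 ^ d * m h) + 9 * g * mt d (D * 2 ^ (h + 1)) + 4 * mt d (D * 2 ^ (h + 1))`
  (`mt` is monotone), and `mt d (D * 2 ^ h) * 2 ≤ mt d (D * 2 ^ (h + 1))`. So
  `2 ^ d * m h ≤ h * (9 * g + 4) * mt d (D * 2 ^ h)`.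
* `contra`: `merge` for `hh`, `0` gives the line `TS … ∅ = Bal d v0 ∅ = T d fun _ => bot v0` (`balX_empty`, up to
  `sgn true`), `ex_nbot` its negation, `s_contra` with `inf2` (3 lines, the only ones that contain
  `τ`; they are long only if `τ` is long).
-/

namespace Pool.Agent.H90.UB

open Finset Pool.Agent.H3.Frg Pool.Agent.H3.Frg2 Pool.Agent.H3.Frg4

variable {V : Type} [DecidableEq V] {X : Set (Fm V)} {s b : ℕ} {d : ℕ} {v0 : V} {pos : V → ℕ}

private theorem card_sd (A A' : Finset V) : (symmDiff A A').card ≤ A.card + A'.card := by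
  refine (Finset.card_le_card ?_).trans (Finset.card_union_le A A')
  intro e he
  rw [Finset.mem_symmDiff] at he
  rw [Finset.mem_union]
  tauto

theorem card_SD (inc : ℕ → Finset V) {D : ℕ} (hD : ∀ v, (inc v).card ≤ D) (h : ℕ) :
    ∀ v, (SD inc h v).card ≤ D * 2 ^ h := by
  induction h with
  | zero => intro v; simpa [SD] using hD v
  | succ h ih =>
    intro v
    simp only [SD]
    have h1 := ih v
    have h2 := ih (v + 2 ^ h)
    have h3 := card_sd (SD inc h v) (SD inc h (v + 2 ^ h))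
    have h4 : D * 2 ^ (h + 1) = 2 * (D * 2 ^ h) := by ring
    omega

private theorem mt_mono {d a a' : ℕ} (h : a ≤ a') : mt d a ≤ mt d a' := by
  unfold mt
  split_ifs <;> omega

theorem merge (hX : Full 1000 X) (hs : 1000 * 4 ^ d ≤ s) (hsb : s ≤ b)
    (hpos : Function.Injective pos) {g : ℕ} (hg : ∀ e, pos e < 2 ^ g)
    (hb : 1000 * (4 ^ g * 4 ^ d) ≤ b) {inc : ℕ → Finset V} {ch : ℕ → Bool} {D n0 : ℕ}
    (hD : ∀ v, (inc v).card ≤ D)
    (hstar : ∀ v, ∀ l : List (Fm V), Dr X l →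
      ∃ l', Ex X s b n0 0 l l' ∧ sgn (ch v) (TS d v0 pos g (inc v)) ∈ l') (h : ℕ) :
    ∀ v, ∀ l : List (Fm V), Dr X l →
    ∃ (n m : ℕ) (l' : List (Fm V)), Ex X s b n m l l' ∧
      n + (2 ^ (g + 1) * K1 d + 4) ≤ 2 ^ h * n0 + 2 ^ h * (2 ^ (g + 1) * K1 d + 4) ∧
      2 ^ d * m ≤ h * (9 * g + 4) * mt d (D * 2 ^ h) ∧
      sgn (CD ch h v) (TS d v0 pos g (SD inc h v)) ∈ l' := by
  obtain ⟨Q, hQ⟩ : ∃ Q, Q = 2 ^ (g + 1) * K1 d := ⟨_, rfl⟩
  rw [← hQ]
  induction h with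
  | zero =>
    intro v l hl
    obtain ⟨l', e', k'⟩ := hstar v l hl
    exact ⟨n0, 0, l', e', by simp, by simp, k'⟩
  | succ h ih =>
    intro v l hl
    obtain ⟨n1, m1, l1, e1, a1, b1, k1⟩ := ih v l hl
    obtain ⟨n2, m2, l2, e2, a2, b2, k2⟩ := ih (v + 2 ^ h) l1 e1.dr
    obtain ⟨n3, m3, l3, e3, a3, b3, k3⟩ := trieadd (v0 := v0) hX hs hsb hpos g hb
      (SD inc h v) (SD inc h (v + 2 ^ h)) (SD inc (h + 1) v) rfl (by
        intro e _ e' _
        rw [Nat.div_eq_of_lt (hg e), Nat.div_eq_of_lt (hg e')]) l2 e2.dr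
    rw [← hQ] at a3
    have c1 := card_SD inc hD h v
    have c2 := card_SD inc hD h (v + 2 ^ h)
    have c3 := card_SD inc hD (h + 1) v
    have c4 : D * 2 ^ (h + 1) = 2 * (D * 2 ^ h) := by ring
    -- the last step
    obtain ⟨m4, hm4, hm4'⟩ : ∃ m4, 2 ^ d * m4 ≤ 4 * mt d (D * 2 ^ (h + 1)) ∧
        ((Fm.imp (sgn (CD ch h v) (TS d v0 pos g (SD inc h v)))
          (Fm.imp (sgn (CD ch h (v + 2 ^ h)) (TS d v0 pos g (SD inc h (v + 2 ^ h))))
          (Fm.imp (Z3 (TS d v0 pos g (SD inc h v)) (TS d v0 pos g (SD inc h (v + 2 ^ h)))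
            (TS d v0 pos g (SD inc (h + 1) v)))
            (sgn (xor (CD ch h v) (CD ch h (v + 2 ^ h)))
              (TS d v0 pos g (SD inc (h + 1) v)))))).len ≤ s ∨ 4 ≤ m4) := by
      by_cases ht : D * 2 ^ (h + 1) ≤ 2 ^ d
      · refine ⟨0, by simp, Or.inl ?_⟩
        rw [TS_small g (show (SD inc h v).card ≤ 2 ^ d by omega),
          TS_small g (show (SD inc h (v + 2 ^ h)).card ≤ 2 ^ d by omega),
          TS_small g (show (SD inc (h + 1) v).card ≤ 2 ^ d by omega)]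
        have t1 := bal_len d v0 (SD inc h v)
        have t2 := bal_len d v0 (SD inc h (v + 2 ^ h))
        have t3 := bal_len d v0 (SD inc (h + 1) v)
        have u1 := len_sgn_le (CD ch h v) (Bal d v0 (SD inc h v))
        have u2 := len_sgn_le (CD ch h (v + 2 ^ h)) (Bal d v0 (SD inc h (v + 2 ^ h)))
        have u3 := len_sgn_le (xor (CD ch h v) (CD ch h (v + 2 ^ h)))
          (Bal d v0 (SD inc (h + 1) v))
        simp only [len_Z3, show ∀ P Q : Fm V, (Fm.imp P Q).len = P.len + Q.len + 1 from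
          fun _ _ => rfl]
        omega
      · refine ⟨4, ?_, Or.inr le_rfl⟩
        unfold mt
        rw [if_neg ht]
        omega
    obtain ⟨l4, e4, k4⟩ := inf3 (s := s) (b := b) e3.dr
      (s_merge hX (CD ch h v) (CD ch h (v + 2 ^ h)) (TS d v0 pos g (SD inc h v))
        (TS d v0 pos g (SD inc h (v + 2 ^ h))) (TS d v0 pos g (SD inc (h + 1) v)))
      (e3.sub (e2.sub k1)) (e3.sub k2) k3 (by
        have t1 := TS_len (d := d) (v0 := v0) (pos := pos) g (SD inc h v)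
        have t2 := TS_len (d := d) (v0 := v0) (pos := pos) g (SD inc h (v + 2 ^ h))
        have t3 := TS_len (d := d) (v0 := v0) (pos := pos) g (SD inc (h + 1) v)
        have t4 : 4 ^ g * (4 ^ d * 6) = 6 * (4 ^ g * 4 ^ d) := by ring
        rw [t4] at t1 t2 t3
        have u1 := len_sgn_le (CD ch h v) (TS d v0 pos g (SD inc h v))
        have u2 := len_sgn_le (CD ch h (v + 2 ^ h)) (TS d v0 pos g (SD inc h (v + 2 ^ h)))
        have u3 := len_sgn_le (xor (CD ch h v) (CD ch h (v + 2 ^ h)))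
          (TS d v0 pos g (SD inc (h + 1) v))
        simp only [len_Z3, show ∀ P Q : Fm V, (Fm.imp P Q).len = P.len + Q.len + 1 from
          fun _ _ => rfl]
        omega) hm4'
    refine ⟨_, _, l4, ((e1.trans e2).trans e3).trans e4, ?_, ?_, k4⟩
    · have d1 : 2 ^ (h + 1) * n0 = 2 * (2 ^ h * n0) := by ring
      have d2 : 2 ^ (h + 1) * (Q + 4) = 2 * (2 ^ h * (Q + 4)) := by ring
      rw [d1, d2]
      omega
    · have d1 : 2 ^ d * (m1 + m2 + m3 + m4) = 2 ^ d * m1 + 2 ^ d * m2 + 2 ^ d * m3 + 2 ^ d * m4 := by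
        ring
      rw [d1]
      have d2 : mt d ((SD inc h v).card + (SD inc h (v + 2 ^ h)).card) ≤ mt d (D * 2 ^ (h + 1)) :=
        mt_mono (by omega)
      have d3 : 2 * mt d (D * 2 ^ h) ≤ mt d (D * 2 ^ (h + 1)) := by
        rw [c4]
        unfold mt
        split_ifs <;> omega
      have d4 : 9 * g * mt d ((SD inc h v).card + (SD inc h (v + 2 ^ h)).card) ≤
          9 * g * mt d (D * 2 ^ (h + 1)) := Nat.mul_le_mul_left _ d2
      have d5 : h * (9 * g + 4) * (2 * mt d (D * 2 ^ h)) ≤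
          h * (9 * g + 4) * mt d (D * 2 ^ (h + 1)) := Nat.mul_le_mul_left _ d3
      have d6 : h * (9 * g + 4) * (2 * mt d (D * 2 ^ h)) =
          2 * (h * (9 * g + 4) * mt d (D * 2 ^ h)) := by ring
      have d7 : (h + 1) * (9 * g + 4) * mt d (D * 2 ^ (h + 1)) =
          h * (9 * g + 4) * mt d (D * 2 ^ (h + 1)) + 9 * g * mt d (D * 2 ^ (h + 1)) +
            4 * mt d (D * 2 ^ (h + 1)) := by ring
      rw [d7]
      omega

theorem contra (hX : Full 1000 X) (hs : 1000 * 4 ^ d ≤ s) (hsb : s ≤ b)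
    (hpos : Function.Injective pos) {g : ℕ} (hg : ∀ e, pos e < 2 ^ g)
    (hb : 1000 * (4 ^ g * 4 ^ d) ≤ b) {inc : ℕ → Finset V} {ch : ℕ → Bool} {D n0 hh : ℕ}
    (hD : ∀ v, (inc v).card ≤ D) (hS : SD inc hh 0 = ∅) (hC : CD ch hh 0 = true)
    (hstar : ∀ v, ∀ l : List (Fm V), Dr X l →
      ∃ l', Ex X s b n0 0 l l' ∧ sgn (ch v) (TS d v0 pos g (inc v)) ∈ l') (τ : Fm V)
    (hτb : τ.len + 100 * 4 ^ d ≤ b) :
    ∃ l' : List (Fm V), Dr X l' ∧ τ ∈ l' ∧
      l'.length ≤ 2 ^ hh * n0 + 2 ^ hh * (2 ^ (g + 1) * K1 d + 4) + 4 ∧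
      2 ^ d * lg s l' ≤ hh * (9 * g + 4) * mt d (D * 2 ^ hh) +
        2 ^ d * (if τ.len + 100 * 4 ^ d ≤ s then 0 else 3) ∧
      ∀ A ∈ l', A.len ≤ b := by
  obtain ⟨n1, m1, l1, e1, a1, b1, k1⟩ := merge (v0 := v0) hX hs hsb hpos hg hb hD hstar hh 0 []
    Dr.nil
  rw [hS, hC, TS_small g (by simp : (∅ : Finset V).card ≤ 2 ^ d)] at k1
  have h0 : Bal d v0 (∅ : Finset V) = T d fun _ => bot v0 := balX_empty ∅
  rw [h0] at k1
  have k1' : (T d fun _ => bot v0) ∈ l1 := k1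
  obtain ⟨l2, e2, k2⟩ := ex_nbot (v0 := v0) hX hs hsb e1.dr
  have t1 := len_T (V := V) d (q := 4) (fun _ => bot v0) (fun _ => le_rfl)
  have t2 : (Fm.imp (T d fun _ => bot v0) (Fm.imp (Fm.neg (T d fun _ => bot v0)) τ)).len ≤
      τ.len + 100 * 4 ^ d := by
    simp only [Fm.len]
    omega
  obtain ⟨l3, e3, k3⟩ := inf2 (s := s) (b := b)
    (m := if τ.len + 100 * 4 ^ d ≤ s then 0 else 3) e2.dr
    (s_contra hX (T d fun _ => bot v0) τ) (e2.sub k1') k2 (t2.trans hτb) (by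
      by_cases h : τ.len + 100 * 4 ^ d ≤ s
      · exact Or.inl (t2.trans h)
      · rw [if_neg h]; exact Or.inr le_rfl)
  have e := (e1.trans e2).trans e3
  refine ⟨l3, e.dr, k3, ?_, ?_, fun A hA => ?_⟩
  · have := e.2.2.1
    simp only [List.length_nil] at this
    omega
  · have h1 := e.2.2.2.1
    have h2 : lg s ([] : List (Fm V)) = 0 := rfl
    rw [h2] at h1
    calc 2 ^ d * lg s l3 ≤ 2 ^ d * (m1 + (if τ.len + 100 * 4 ^ d ≤ s then 0 else 3)) :=
          Nat.mul_le_mul_left _ (by omega)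
      _ = 2 ^ d * m1 + 2 ^ d * (if τ.len + 100 * 4 ^ d ≤ s then 0 else 3) := by ring
      _ ≤ _ := Nat.add_le_add_right b1 _
  · rcases e.2.2.2.2 A hA with h | h
    · exact absurd h (List.not_mem_nil)
    · exact h

end Pool.Agent.H90.UB
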