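import Mathlib
import Pool.Agent.H90.UB.Dr

set_option autoImplicit false
set_option linter.unusedSectionVars false

/-!
# Module SIM: simulation in every complete Frege system

* `finite_small`: formulas with variables `< q` and length `≤ ℓ` form a finite set. Induction on `ℓ`:
  the set for `ℓ + 1` is contained in the union of the variables, the negations and the
  implications of formulas of the set for `ℓ` (`Set.Finite.image`, `Set.Finite.image2`).
* Normal form: for `ψ` with `ψ.len ≤ ℓ` there are `f g : ℕ → ℕ` with `(ψ.ren f).ren g = ψ` and `f i < ℓ + 1` for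
  all `i`: the set `ψ.vars` has at most `ψ.len ≤ ℓ` elements (`card_vars_le` in `H3/Frg2/Small.lean`); `f`
  maps the variables to their place (`Finset.equivFin`), everything else to `0`, `g` is an inverse on
  the places. The schemes `ψ.ren f` that occur form a finite set `P` of sound schemes.
* For `χ ∈ P` take (`hF`) a derivation `pf` of `χ` in `F`; all lines of all these derivations have length
  at most `c`, their numbers of lines are at most `c`.
* `sim_inst`: an instance `ψ.bind σ = (χ.ren g).bind σ = χ.bind (fun i => σ (g i))`. Let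
  `σ' i = if i ∈ χ.vars then σ (g i) else Fm.var v0`; then `χ.bind σ' = ψ.bind σ` (`bind` depends only on the
  variables) and `(σ' i).len ≤ (ψ.bind σ).len`, so the lines `(pf j).bind σ'` have length at most
  `(pf j).len * (ψ.bind σ).len ≤ c * (ψ.bind σ).len` (a formula `A.bind σ'` has length at most
  `A.len * max`). They form a derivation from any `Γ` (`IsDer F ∅` is preserved by `bind`:
  `(ρ.bind σ₁).bind σ' = ρ.bind (fun i => (σ₁ i).bind σ')`). Put them in front of the list, in the order of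
  `Fin L` (induction on the number of lines already added).
* `simul`: induction on `Dr`. `nil`: `[]`. `ax` with `A ∈ Γ`: one line `A`. `ax` with an instance: `sim_inst`.
  `mp`: one line. Long lines: a line longer than `c * s` comes from an instance longer than `s` (or is
  the line itself), at most `c` new lines for each old line.
-/

namespace Pool.Agent.H90.UB

open Finset Pool.Agent.H3.Frg Pool.Agent.H3.Frg2 Pool.Agent.H3.Frg4

/-- complete: every tautology has a derivation -/
def Compl (F : Set (Fm ℕ)) : Prop := ∀ A : Fm ℕ, (∀ x, A.eval x = true) →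
  ∃ (L : ℕ) (pf : Fin L → Fm ℕ), IsDer F (∅ : Set (Fm ℕ)) pf ∧ ∃ i, pf i = A

private theorem sim_bind_bind {V : Type} (σ : ℕ → Fm ℕ) (σ' : ℕ → Fm V) (A : Fm ℕ) :
    (A.bind σ).bind σ' = A.bind (fun i => (σ i).bind σ') := by
  induction A with
  | var i => rfl
  | neg A ih => simp only [Fm.bind, ih]
  | imp A B ihA ihB => simp only [Fm.bind, ihA, ihB]

private theorem sim_bind_congr {V : Type} (σ σ' : ℕ → Fm V) (A : Fm ℕ)
    (h : ∀ i ∈ A.vars, σ i = σ' i) : A.bind σ = A.bind σ' := by
  induction A with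
  | var i => exact h i (by simp [Fm.vars])
  | neg A ih => simp only [Fm.bind]; rw [ih h]
  | imp A B ihA ihB =>
    simp only [Fm.bind]
    rw [ihA fun v hv => h v (by simp [Fm.vars, hv]), ihB fun v hv => h v (by simp [Fm.vars, hv])]

private theorem sim_len_pos {V : Type} (A : Fm V) : 1 ≤ A.len := by
  cases A <;> simp only [Fm.len] <;> omega

private theorem sim_len_le_bind {V : Type} (σ : ℕ → Fm V) (A : Fm ℕ) :
    ∀ i ∈ A.vars, (σ i).len ≤ (A.bind σ).len := by
  induction A with
  | var j =>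
    intro i hi
    simp only [Fm.vars, Finset.mem_singleton] at hi
    rw [hi]
    exact le_refl _
  | neg A ih =>
    intro i hi
    have := ih i hi
    simp only [Fm.bind, Fm.len]
    omega
  | imp A B ihA ihB =>
    intro i hi
    simp only [Fm.vars, Finset.mem_union] at hi
    simp only [Fm.bind, Fm.len]
    rcases hi with hi | hi
    · have := ihA i hi
      omega
    · have := ihB i hi
      omega

private theorem sim_len_bind {V : Type} (σ : ℕ → Fm V) {m : ℕ} (hm : 1 ≤ m)
    (h : ∀ i, (σ i).len ≤ m) (A : Fm ℕ) : (A.bind σ).len ≤ A.len * m := by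
  induction A with
  | var i =>
    have h1 : ((Fm.var i).bind σ).len ≤ m := h i
    have h2 : (Fm.var i : Fm ℕ).len * m = m := by simp [Fm.len]
    omega
  | neg A ih =>
    have h1 : ((Fm.neg A).bind σ).len = (A.bind σ).len + 1 := by
      simp only [Fm.bind, Fm.len]
    have h2 : (Fm.neg A).len * m = A.len * m + m := by
      simp only [Fm.len]; ring
    omega
  | imp A B ihA ihB =>
    have h1 : ((Fm.imp A B).bind σ).len = (A.bind σ).len + (B.bind σ).len + 1 := by
      simp only [Fm.bind, Fm.len]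
    have h2 : (Fm.imp A B).len * m = A.len * m + B.len * m + m := by
      simp only [Fm.len]; ring
    omega

private theorem sim_ders {V : Type} {F : Set (Fm ℕ)} {Γ : Set (Fm V)} {L : ℕ}
    {pf : Fin L → Fm ℕ} (h : IsDer F (∅ : Set (Fm ℕ)) pf) (σ' : ℕ → Fm V) {l0 : List (Fm V)}
    (h0 : Dr (Ax F Γ) l0) : ∀ k : ℕ, k ≤ L → ∃ l' : List (Fm V), Dr (Ax F Γ) (l' ++ l0) ∧
      l'.length ≤ k ∧ (∀ j : Fin L, (j : ℕ) < k → (pf j).bind σ' ∈ l') ∧
      ∀ A ∈ l', ∃ j, A = (pf j).bind σ' := by
  intro k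
  induction k with
  | zero =>
    intro _
    exact ⟨[], h0, le_refl _, fun j hj => absurd hj (by omega), fun A hA => absurd hA (by simp)⟩
  | succ k ih =>
    intro hk
    obtain ⟨l', h1, h2, h3, h4⟩ := ih (by omega)
    have hj0 : k < L := by omega
    refine ⟨(pf ⟨k, hj0⟩).bind σ' :: l', ?_, ?_, ?_, ?_⟩
    · rw [List.cons_append]
      rcases h ⟨k, hj0⟩ with h5 | ⟨ψ, hψ, σ, h5⟩ | ⟨j, i, hj, hi, h5⟩
      · exact absurd h5 (Set.notMem_empty _)
      · refine Dr.ax _ _ h1 (Or.inr ⟨ψ, hψ, fun i => (σ i).bind σ', ?_⟩)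
        rw [h5, sim_bind_bind]
      · have hj' : (j : ℕ) < k := hj
        have hi' : (i : ℕ) < k := hi
        refine Dr.mp _ _ _ h1 (List.mem_append_left _ (h3 j hj')) ?_
        have h6 := h3 i hi'
        rw [h5] at h6
        exact List.mem_append_left _ h6
    · rw [List.length_cons]; omega
    · intro j hj
      by_cases hjk : (j : ℕ) = k
      · have : j = ⟨k, hj0⟩ := Fin.ext hjk
        rw [this]
        exact List.mem_cons_self
      · exact List.mem_cons_of_mem _ (h3 j (by omega))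
    · intro A hA
      rcases List.mem_cons.1 hA with rfl | hA
      · exact ⟨_, rfl⟩
      · exact h4 A hA

private theorem sim_lg_append {V : Type} (s : ℕ) (l l' : List (Fm V)) :
    lg s (l ++ l') = lg s l + lg s l' := by
  unfold lg
  rw [List.countP_append]

private theorem sim_lg_le {V : Type} (s : ℕ) (l : List (Fm V)) : lg s l ≤ l.length := by
  unfold lg
  exact List.countP_le_length

private theorem sim_lg_zero {V : Type} (s : ℕ) (l : List (Fm V)) (h : ∀ A ∈ l, A.len ≤ s) :
    lg s l = 0 := by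
  unfold lg
  rw [List.countP_eq_zero]
  intro A hA
  have := h A hA
  simp only [decide_eq_true_eq, not_lt]
  exact this

/-- one instance of a sound scheme -/
private theorem sim_inst {F : Set (Fm ℕ)} (hF : Compl F) (ℓ : ℕ) : ∃ c : ℕ, 1 ≤ c ∧
    ∀ (V : Type) (_v0 : V) (Γ : Set (Fm V)) (l0 : List (Fm V)) (A : Fm V),
      (∃ ψ ∈ S0 ℓ, ∃ σ : ℕ → Fm V, A = ψ.bind σ) → Dr (Ax F Γ) l0 →
      ∃ l' : List (Fm V), Dr (Ax F Γ) (l' ++ l0) ∧ l'.length ≤ c ∧ A ∈ l' ∧
        ∀ B ∈ l', B.len ≤ c * A.len := by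
  classical
  have hch : ∀ χ : Fm ℕ, ∃ (L : ℕ) (pf : Fin L → Fm ℕ), (∀ x, χ.eval x = true) →
      (IsDer F (∅ : Set (Fm ℕ)) pf ∧ ∃ i, pf i = χ) := by
    intro χ
    by_cases hx : ∀ x, χ.eval x = true
    · obtain ⟨L, pf, h1, h2⟩ := hF χ hx
      exact ⟨L, pf, fun _ => ⟨h1, h2⟩⟩
    · exact ⟨0, fun i => i.elim0, fun h => absurd h hx⟩
  choose L pf hpf using hch
  have hfin := finite_Tau ℓ ℓ
  obtain ⟨c1, hc1⟩ := (hfin.image (fun χ => L χ + ∑ i : Fin (L χ), (pf χ i).len)).bddAbove
  refine ⟨c1 + 1, by omega, ?_⟩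
  intro V v0 Γ l0 A hA h0
  obtain ⟨ψ, hψ, σ, rfl⟩ := hA
  obtain ⟨χ, hχ, σ0, h1⟩ := inst_Tau (m := ℓ) (ℓ := ℓ) (0 : ℕ) ψ hψ.2
    ((card_vars_le ψ).trans hψ.1) hψ.1
  have hb := hc1 (Set.mem_image_of_mem _ hχ)
  obtain ⟨hd, i0, hi0⟩ := hpf χ hχ.1
  set τ : ℕ → Fm V := fun i => (σ0 i).bind σ with hτ
  set σ' : ℕ → Fm V := fun i => if i ∈ χ.vars then τ i else Fm.var v0 with hσ'
  have h2 : ψ.bind σ = χ.bind σ' := by
    rw [← h1, sim_bind_bind]
    refine sim_bind_congr _ _ _ fun i hi => ?_
    rw [hσ']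
    simp only [hi, if_true]
    rfl
  have h3 : ∀ i, (σ' i).len ≤ (ψ.bind σ).len := by
    intro i
    by_cases hi : i ∈ χ.vars
    · rw [h2]
      exact sim_len_le_bind σ' χ i hi
    · have : σ' i = Fm.var v0 := by
        rw [hσ']
        simp only [hi, if_false]
      rw [this]
      have h4 := sim_len_pos (ψ.bind σ)
      simpa [Fm.len] using h4
  obtain ⟨l', a1, a2, a3, a4⟩ := sim_ders hd σ' h0 (L χ) le_rfl
  refine ⟨l', a1, by omega, ?_, ?_⟩
  · rw [h2, ← hi0]
    exact a3 i0 i0.2
  · intro B hB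
    obtain ⟨j, rfl⟩ := a4 B hB
    refine (sim_len_bind σ' (sim_len_pos _) h3 (pf χ j)).trans ?_
    refine Nat.mul_le_mul_right _ ?_
    have h5 : (pf χ j).len ≤ ∑ i : Fin (L χ), (pf χ i).len :=
      Finset.single_le_sum (f := fun i => (pf χ i).len) (fun i _ => Nat.zero_le _) (Finset.mem_univ j)
    omega

theorem simul {F : Set (Fm ℕ)} (hF : Compl F) (ℓ : ℕ) : ∃ c : ℕ, 1 ≤ c ∧
    ∀ (V : Type) (_v0 : V) (Γ : Set (Fm V)) (l : List (Fm V)), Dr (Ax (S0 ℓ) Γ) l →
      ∀ s b : ℕ, (∀ A ∈ l, A.len ≤ b) →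
      ∃ l', Dr (Ax F Γ) l' ∧ (∀ A ∈ l, A ∈ l') ∧ l'.length ≤ c * l.length ∧
        lg (c * s) l' ≤ c * lg s l ∧ ∀ A ∈ l', A.len ≤ c * b := by
  obtain ⟨c, hc, H⟩ := sim_inst hF ℓ
  refine ⟨c, hc, ?_⟩
  intro V v0 Γ l hl s b
  have one : ∀ (A : Fm V) (l l' : List (Fm V)), Dr (Ax F Γ) (A :: l') → A.len ≤ b →
      (∀ A ∈ l, A ∈ l') → l'.length ≤ c * l.length → lg (c * s) l' ≤ c * lg s l →
      (∀ A ∈ l', A.len ≤ c * b) →
      ∃ l', Dr (Ax F Γ) l' ∧ (∀ B ∈ A :: l, B ∈ l') ∧ l'.length ≤ c * (A :: l).length ∧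
        lg (c * s) l' ≤ c * lg s (A :: l) ∧ ∀ A ∈ l', A.len ≤ c * b := by
    intro A l l' h1 hA h2 h3 h4 h5
    refine ⟨A :: l', h1, ?_, ?_, ?_, ?_⟩
    · intro B hB
      rcases List.mem_cons.1 hB with rfl | hB
      · exact List.mem_cons_self
      · exact List.mem_cons_of_mem _ (h2 B hB)
    · rw [List.length_cons, List.length_cons, Nat.mul_add, Nat.mul_one]
      omega
    · rw [lg_cons, lg_cons, Nat.mul_add]
      have h6 : s ≤ c * s := Nat.le_mul_of_pos_left s hc
      split_ifs with h7 h8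
      · omega
      · omega
      · omega
      · omega
    · intro B hB
      rcases List.mem_cons.1 hB with rfl | hB
      · exact hA.trans (Nat.le_mul_of_pos_left b hc)
      · exact h5 B hB
  induction hl with
  | nil =>
    intro _
    refine ⟨[], Dr.nil, fun A hA => hA, by simp, by simp [lg], by simp⟩
  | ax A l hl hA ih =>
    intro hb
    obtain ⟨l', h1, h2, h3, h4, h5⟩ := ih fun B hB => hb B (List.mem_cons_of_mem _ hB)
    have hAb : A.len ≤ b := hb A List.mem_cons_self
    rcases hA with hA | hA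
    · exact one A l l' (Dr.ax A l' h1 (Or.inl hA)) hAb h2 h3 h4 h5
    · obtain ⟨l1, a1, a2, a3, a4⟩ := H V v0 Γ l' A hA h1
      refine ⟨l1 ++ l', a1, ?_, ?_, ?_, ?_⟩
      · intro B hB
        rcases List.mem_cons.1 hB with rfl | hB
        · exact List.mem_append_left _ a3
        · exact List.mem_append_right _ (h2 B hB)
      · rw [List.length_append, List.length_cons, Nat.mul_add, Nat.mul_one]
        omega
      · rw [sim_lg_append, lg_cons, Nat.mul_add]
        split_ifs with h7
        · have := sim_lg_le (c * s) l1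
          omega
        · have : lg (c * s) l1 = 0 := by
            refine sim_lg_zero _ _ fun B hB => ?_
            exact (a4 B hB).trans (Nat.mul_le_mul_left c (by omega))
          omega
      · intro B hB
        rcases List.mem_append.1 hB with hB | hB
        · exact (a4 B hB).trans (Nat.mul_le_mul_left c hAb)
        · exact h5 B hB
  | mp A B l hl hA hAB ih =>
    intro hb
    obtain ⟨l', h1, h2, h3, h4, h5⟩ := ih fun B hB => hb B (List.mem_cons_of_mem _ hB)
    exact one B l l' (Dr.mp A B l' h1 (h2 A hA) (h2 _ hAB)) (hb B List.mem_cons_self) h2 h3 h4 h5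

end Pool.Agent.H90.UB
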