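import Mathlib
import Pool.Agent.H90.UB.Star
import Pool.Agent.H90.UB.Merge
import Pool.Agent.H90.UB.Sim
import Pool.Agent.H3.Frg4.Cnf

set_option autoImplicit false
set_option linter.unusedSectionVars false

/-!
# Module FIXD: the upper bound for one system of equations
-/

namespace Pool.Agent.H90.UB

open Finset Pool.Agent.H3.Frg Pool.Agent.H3.Frg2 Pool.Agent.H3.Frg4

/-- the derivation over the variables `Fin ne`, all sound schemes of length at most `ℓ0` -/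
theorem ub0 {Dm N : ℕ} {C : ℕ → Fm ℕ} (h : UBP Dm N C) (hDm : 1 ≤ Dm) (dd d g : ℕ)
    (hd : Dm ≤ 2 ^ d) (hg : Dm * N ≤ 2 ^ g) {ℓ0 : ℕ}
    (hℓ : ℓ0 = 1000 + 2 ^ Dm * (4 * Dm + 1) + 100 * 2 ^ Dm) :
    ∃ (ne : ℕ) (_v0 : Fin ne) (C' : ℕ → Fm (Fin ne)) (l : List (Fm (Fin ne))), ne ≤ Dm * N ∧
      (∀ i, C i = (C' i).ren Fin.val) ∧ Dr (Ax (S0 ℓ0) (Set.range C')) l ∧
      Fm.neg (bigAnd dd C') ∈ l ∧
      l.length ≤ 2 * N * (2 * 2 ^ Dm + 7 + Dm * (2 * d + 4)) +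
        2 * N * (2 ^ (g + 1) * K1 d + 4) + 4 ∧
      2 ^ d * lg (ℓ0 * 4 ^ d) l ≤ (g + 1) * (9 * g + 4) * mt d (2 * Dm * N) +
        2 ^ d * (if (Fm.neg (bigAnd dd C)).len ≤ 4 ^ d then 0 else 3) ∧
      ∀ A ∈ l, A.len ≤ ℓ0 * (4 ^ g * 4 ^ d) + (Fm.neg (bigAnd dd C)).len := by
  classical
  obtain ⟨ne, hh, v0, C', inc, ch, hne, hN1, hN2, hC, hCl, hinc, hSD, hCD, hI⟩ := h
  have hτ : Fm.neg (bigAnd dd C) = (Fm.neg (bigAnd dd C')).ren Fin.val := by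
    show _ = Fm.neg ((bigAnd dd C').ren Fin.val)
    rw [ren_bigAnd]
    congr 2
    funext i
    exact hC i
  have hτl : (Fm.neg (bigAnd dd C)).len = (Fm.neg (bigAnd dd C')).len := by
    rw [hτ, len_ren]
  set X := Ax (S0 ℓ0) (Set.range C') with hXdef
  have h4d : 1 ≤ 4 ^ d := Nat.one_le_pow _ _ (by norm_num)
  have h4g : 1 ≤ 4 ^ g := Nat.one_le_pow _ _ (by norm_num)
  have hX : Full ℓ0 X := fun ψ hψ σ => Or.inr ⟨ψ, hψ, σ, rfl⟩
  have hX1 : Full 1000 X := fun ψ hψ σ => Or.inr ⟨ψ, ⟨hψ.1.trans (by omega), hψ.2⟩, σ, rfl⟩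
  obtain ⟨s, hs⟩ : ∃ s, s = ℓ0 * 4 ^ d := ⟨_, rfl⟩
  obtain ⟨b, hb⟩ : ∃ b, b = ℓ0 * (4 ^ g * 4 ^ d) + (Fm.neg (bigAnd dd C')).len := ⟨_, rfl⟩
  have hs1 : 1000 * 4 ^ d ≤ s := by
    rw [hs]; exact Nat.mul_le_mul_right _ (by omega)
  have hs2 : ℓ0 ≤ s := by rw [hs]; exact Nat.le_mul_of_pos_right _ (by omega)
  have hsb : s ≤ b := by
    rw [hs, hb]
    refine le_trans (Nat.mul_le_mul_left _ ?_) (Nat.le_add_right _ _)
    exact Nat.le_mul_of_pos_left _ (by omega)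
  have hb1 : 1000 * (4 ^ g * 4 ^ d) ≤ b := by
    rw [hb]
    exact le_trans (Nat.mul_le_mul_right _ (by omega)) (Nat.le_add_right _ _)
  have hgpos : ∀ e : Fin ne, (e : ℕ) < 2 ^ g := fun e =>
    lt_of_lt_of_le e.isLt (hne.trans hg)
  have hcard : ∀ v, (inc v).card ≤ 2 ^ d := fun v => (hinc v).trans hd
  have hstar : ∀ v, ∀ l : List (Fm (Fin ne)), Dr X l →
      ∃ l', Ex X s b (2 * 2 ^ Dm + 7 + Dm * (2 * d + 4)) 0 l l' ∧
        sgn (ch v) (TS d v0 Fin.val g (inc v)) ∈ l' := by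
    intro v l hl
    obtain ⟨I, hI1, hI2⟩ := hI v
    have hlen : (inc v).toList.length ≤ Dm := by
      rw [Finset.length_toList]; exact hinc v
    obtain ⟨l1, e1, k1⟩ := clauses (s := s) (b := b) hX Fin.val
      (fun i => if h : i < ne then ⟨i, h⟩ else v0)
      (fun e => by simp) (q := 4 * Dm) (I.map C') (by
        intro A hA
        obtain ⟨i, _, rfl⟩ := List.mem_map.1 hA
        exact Or.inl ⟨i, rfl⟩) (by
        intro A hA
        obtain ⟨i, _, rfl⟩ := List.mem_map.1 hA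
        exact hCl i) (inc v).toList (ch v) (by
        intro x hx
        exact hI2 x fun i hi => hx _ (List.mem_map.2 ⟨i, hi, rfl⟩)) (by
        rw [List.length_map]
        have h1 : I.length * (4 * Dm + 1) ≤ 2 ^ Dm * (4 * Dm + 1) :=
          Nat.mul_le_mul_right _ hI1
        have h2 : 2 ^ (inc v).toList.length ≤ 2 ^ Dm := Nat.pow_le_pow_right (by norm_num) hlen
        omega) hs2 hsb hl
    rw [List.length_map] at e1
    obtain ⟨l2, e2, k2⟩ := star (v0 := v0) hX1 hs1 hsb (hcard v) (by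
        have h2 : 2 ^ (inc v).card ≤ 2 ^ Dm := Nat.pow_le_pow_right (by norm_num) (hinc v)
        omega) (ch v) e1.dr k1
    refine ⟨l2, (e1.trans e2).mono ?_ (by omega), ?_⟩
    · have h1 : (inc v).card * (2 * d + 4) ≤ Dm * (2 * d + 4) := Nat.mul_le_mul_right _ (hinc v)
      omega
    · rw [TS_small g (hcard v)]
      exact k2
  obtain ⟨l, hl, hτ1, hln, hlg, hlb⟩ := contra (v0 := v0) hX1 hs1 hsb Fin.val_injective hgpos hb1
    hinc hSD hCD hstar (Fm.neg (bigAnd dd C')) (by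
      rw [hb]
      have : 100 * 4 ^ d ≤ ℓ0 * (4 ^ g * 4 ^ d) :=
        Nat.mul_le_mul (by omega) (Nat.le_mul_of_pos_left _ (by omega))
      omega)
  refine ⟨ne, v0, C', l, hne, hC, hl, hτ1, ?_, ?_, ?_⟩
  · refine hln.trans ?_
    have h1 := Nat.mul_le_mul_right (2 * 2 ^ Dm + 7 + Dm * (2 * d + 4)) hN2
    have h2 := Nat.mul_le_mul_right (2 ^ (g + 1) * K1 d + 4) hN2
    omega
  · rw [← hs]
    refine hlg.trans (Nat.add_le_add ?_ ?_)
    · have hhh : hh ≤ g + 1 := by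
        have h1 : 2 ^ hh ≤ 2 ^ (g + 1) := by
          refine hN2.trans ?_
          rw [pow_succ, mul_comm _ 2]
          refine Nat.mul_le_mul_left _ ?_
          exact le_trans (Nat.le_mul_of_pos_left _ (by omega)) hg
        exact (Nat.pow_le_pow_iff_right (by norm_num)).1 h1
      refine Nat.mul_le_mul (Nat.mul_le_mul_right _ hhh) ?_
      have h2 : Dm * 2 ^ hh ≤ 2 * Dm * N := by
        calc Dm * 2 ^ hh ≤ Dm * (2 * N) := Nat.mul_le_mul_left _ hN2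
          _ = 2 * Dm * N := by ring
      unfold mt
      split_ifs <;> omega
    · refine Nat.mul_le_mul_left _ ?_
      rw [hτl]
      by_cases h1 : (Fm.neg (bigAnd dd C')).len ≤ 4 ^ d
      · rw [if_pos h1, if_pos (by omega)]
      · rw [if_neg h1]
        split_ifs <;> omega
  · intro A hA
    rw [hτl, ← hb]
    exact hlb A hA

/-- the upper bound in a complete Frege system -/
theorem ub_fixed {F : Set (Fm ℕ)} (hF : Compl F) (Dm : ℕ) (hDm : 1 ≤ Dm) : ∃ c : ℕ, 1 ≤ c ∧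
    ∀ (N : ℕ) (C : ℕ → Fm ℕ), UBP Dm N C → ∀ dd d g : ℕ, Dm ≤ 2 ^ d → Dm * N ≤ 2 ^ g →
    ∃ (L : ℕ) (pf : Fin L → Fm ℕ), IsDer F (Set.range C) pf ∧
      (∃ i, pf i = Fm.neg (bigAnd dd C)) ∧
      L ≤ c * (N * 2 ^ g * (2 ^ d * (d + 1))) ∧
      2 ^ d * {A | (∃ i, A = pf i) ∧ c * 4 ^ d * (2 * Nat.size (Dm * N) + 2) <
        A.enc.length}.ncard ≤ c * ((g + 1) ^ 2 * mt d (2 * Dm * N) +
          2 ^ d * (if (Fm.neg (bigAnd dd C)).len ≤ 4 ^ d then 0 else 1)) ∧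
      ∀ i, (pf i).enc.length ≤ c * (4 ^ g * 4 ^ d + (Fm.neg (bigAnd dd C)).len) *
        (2 * Nat.size (Dm * N) + 2) := by
  classical
  obtain ⟨ℓ0, hℓ⟩ : ∃ ℓ0, ℓ0 = 1000 + 2 ^ Dm * (4 * Dm + 1) + 100 * 2 ^ Dm := ⟨_, rfl⟩
  obtain ⟨c, hc, hsim⟩ := simul hF ℓ0
  obtain ⟨c1, hc1⟩ : ∃ c1, c1 = c * ℓ0 * 400 := ⟨_, rfl⟩
  have hℓ1 : 1 ≤ ℓ0 := by omega
  have hcl : 1 ≤ c * ℓ0 := Nat.mul_pos hc hℓ1
  have hDp : Dm ≤ 2 ^ Dm := (Nat.lt_two_pow_self).le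
  refine ⟨c1, by omega, fun N C hU dd d g hd hg => ?_⟩
  obtain ⟨ne, v0, C', l, hne, hC, hl, hτ, hln, hlg, hlb⟩ := ub0 hU hDm dd d g hd hg hℓ
  obtain ⟨l', hl', hsub, hln', hlg', hlb'⟩ := hsim (Fin ne) v0 (Set.range C') l hl (ℓ0 * 4 ^ d) _ hlb
  obtain ⟨pf, hpf, hpf1, hpf2⟩ := to_der hl'
  have hsz : Nat.size ne ≤ Nat.size (Dm * N) := Nat.size_le_size hne
  obtain ⟨Λ, hΛ⟩ : ∃ Λ, Λ = 2 * Nat.size (Dm * N) + 2 := ⟨_, rfl⟩
  have henc : ∀ A : Fm (Fin ne), (A.ren Fin.val).enc.length ≤ A.len * Λ := by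
    intro A
    refine (enc_le Fin.val ne (fun v => v.isLt) A).trans ?_
    exact Nat.mul_le_mul_left _ (by omega)
  have hN1 : 1 ≤ N := by
    obtain ⟨_, hh, _, _, _, _, _, _, h3, _⟩ := hU
    have : 1 ≤ 2 ^ hh := Nat.one_le_two_pow
    omega
  rw [← hΛ]
  refine ⟨l'.length, fun i => (pf i).ren Fin.val, ?_, ?_, ?_, ?_, ?_⟩
  · have h1 := isDer_ren hpf Fin.val
    have h2 : (fun A : Fm (Fin ne) => A.ren Fin.val) '' Set.range C' = Set.range C := by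
      rw [← Set.range_comp]
      congr 1
      funext i
      exact (hC i).symm
    rwa [h2] at h1
  · obtain ⟨i, hi⟩ := hpf2 _ (hsub _ hτ)
    refine ⟨i, ?_⟩
    simp only [hi]
    show Fm.neg ((bigAnd dd C').ren Fin.val) = _
    rw [ren_bigAnd]
    congr 2
    funext j
    exact (hC j).symm
  · refine hln'.trans ?_
    refine (Nat.mul_le_mul_left c hln).trans ?_
    rw [hc1]
    have e1 : 1 ≤ 2 ^ g := Nat.one_le_two_pow
    have e2 : 1 ≤ 2 ^ d := Nat.one_le_two_pow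
    obtain ⟨Y, hY⟩ : ∃ Y, Y = N * 2 ^ g * (2 ^ d * (d + 1)) := ⟨_, rfl⟩
    have e3 : N * (d + 1) ≤ Y := by
      rw [hY]
      calc N * (d + 1) = N * 1 * (1 * (d + 1)) := by ring
        _ ≤ _ := by gcongr
    have e4 : N ≤ N * (d + 1) := Nat.le_mul_of_pos_right _ (by omega)
    have e5 : 2 * N * (2 * 2 ^ Dm + 7 + Dm * (2 * d + 4)) ≤ ℓ0 * Y * 2 := by
      have e6 : 2 * 2 ^ Dm + 7 + Dm * (2 * d + 4) ≤ ℓ0 * (d + 1) := by
        have : Dm * (2 * d + 4) ≤ 4 * 2 ^ Dm * (d + 1) := by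
          calc Dm * (2 * d + 4) ≤ 2 ^ Dm * (4 * (d + 1)) :=
                Nat.mul_le_mul hDp (by omega)
            _ = _ := by ring
        have h8 : ℓ0 * (d + 1) = 1000 * (d + 1) + 2 ^ Dm * (4 * Dm + 1) * (d + 1) +
            100 * 2 ^ Dm * (d + 1) := by rw [hℓ]; ring
        have h9 : 2 ^ Dm ≤ 2 ^ Dm * (d + 1) := Nat.le_mul_of_pos_right _ (by omega)
        have h10 : 100 * 2 ^ Dm * (d + 1) = 100 * (2 ^ Dm * (d + 1)) := by ring
        have h11 : 4 * 2 ^ Dm * (d + 1) = 4 * (2 ^ Dm * (d + 1)) := by ring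
        rw [h8]
        omega
      calc 2 * N * (2 * 2 ^ Dm + 7 + Dm * (2 * d + 4)) ≤ 2 * N * (ℓ0 * (d + 1)) :=
            Nat.mul_le_mul_left _ e6
        _ = ℓ0 * (N * (d + 1)) * 2 := by ring
        _ ≤ ℓ0 * Y * 2 := by gcongr
    have e7 : 2 * N * (2 ^ (g + 1) * K1 d + 4) + 4 ≤ 320 * Y := by
      have e8 : K1 d ≤ 75 * (2 ^ d * (d + 1)) := by
        unfold K1
        have h1 : 2 * 2 ^ d * (4 * d + 6) = 8 * (2 ^ d * (d + 1)) + 4 * 2 ^ d := by ring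
        have h2 : 2 ^ d ≤ 2 ^ d * (d + 1) := Nat.le_mul_of_pos_right _ (by omega)
        omega
      have e9 : 2 * N * (2 ^ (g + 1) * K1 d + 4) ≤
          2 * N * (2 ^ (g + 1) * (75 * (2 ^ d * (d + 1))) + 4) := by gcongr
      have e10 : 2 * N * (2 ^ (g + 1) * (75 * (2 ^ d * (d + 1))) + 4) = 300 * Y + 8 * N := by
        rw [hY, pow_succ]; ring
      omega
    have e11 : Y ≤ ℓ0 * Y := Nat.le_mul_of_pos_left _ (by omega)
    calc c * (2 * N * (2 * 2 ^ Dm + 7 + Dm * (2 * d + 4)) +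
          2 * N * (2 ^ (g + 1) * K1 d + 4) + 4) ≤ c * (ℓ0 * Y * 2 + 320 * (ℓ0 * Y)) := by
          refine Nat.mul_le_mul_left _ ?_
          omega
      _ ≤ c * (ℓ0 * 400 * Y) := by
          refine Nat.mul_le_mul_left _ ?_
          have : ℓ0 * 400 * Y = 400 * (ℓ0 * Y) := by ring
          rw [this]
          have : ℓ0 * Y * 2 = 2 * (ℓ0 * Y) := by ring
          omega
      _ = c * ℓ0 * 400 * Y := by ring
      _ = _ := by rw [hY]
  · -- long lines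
    have h1 : {A | (∃ i, A = (pf i).ren Fin.val) ∧ c1 * 4 ^ d * Λ < A.enc.length} ⊆
        (fun A : Fm (Fin ne) => A.ren Fin.val) '' {A | A ∈ l' ∧ c * (ℓ0 * 4 ^ d) < A.len} := by
      rintro A ⟨⟨i, rfl⟩, h2⟩
      refine ⟨pf i, ⟨hpf1 i, ?_⟩, rfl⟩
      by_contra h3
      push Not at h3
      have h4 := henc (pf i)
      have h5 : (pf i).len * Λ ≤ c * (ℓ0 * 4 ^ d) * Λ := Nat.mul_le_mul_right _ h3
      have h6 : c * (ℓ0 * 4 ^ d) * Λ ≤ c1 * 4 ^ d * Λ := by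
        refine Nat.mul_le_mul_right _ ?_
        rw [hc1]
        calc c * (ℓ0 * 4 ^ d) = c * ℓ0 * 1 * 4 ^ d := by ring
          _ ≤ c * ℓ0 * 400 * 4 ^ d := by gcongr; norm_num
      omega
    have hfin : {A | A ∈ l' ∧ c * (ℓ0 * 4 ^ d) < A.len}.Finite :=
      (List.finite_toSet l').subset fun A hA => hA.1
    have h2 := (Set.ncard_le_ncard h1 (hfin.image _)).trans (Set.ncard_image_le hfin)
    have h3 := (h2.trans (ncard_long _ _)).trans hlg'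
    refine (Nat.mul_le_mul_left (2 ^ d) h3).trans ?_
    calc 2 ^ d * (c * lg (ℓ0 * 4 ^ d) l) = c * (2 ^ d * lg (ℓ0 * 4 ^ d) l) := by ring
      _ ≤ c * ((g + 1) * (9 * g + 4) * mt d (2 * Dm * N) +
        2 ^ d * (if (Fm.neg (bigAnd dd C)).len ≤ 4 ^ d then 0 else 3)) :=
          Nat.mul_le_mul_left _ hlg
      _ ≤ c * (400 * ((g + 1) ^ 2 * mt d (2 * Dm * N) +
          2 ^ d * (if (Fm.neg (bigAnd dd C)).len ≤ 4 ^ d then 0 else 1))) := by
          refine Nat.mul_le_mul_left _ ?_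
          rw [mul_add 400]
          refine Nat.add_le_add ?_ ?_
          · calc (g + 1) * (9 * g + 4) * mt d (2 * Dm * N) ≤
                  (g + 1) * (400 * (g + 1)) * mt d (2 * Dm * N) := by
                  refine Nat.mul_le_mul_right _ (Nat.mul_le_mul_left _ (by omega))
              _ = _ := by ring
          · split_ifs
            · simp
            · omega
      _ = c * 1 * 400 * ((g + 1) ^ 2 * mt d (2 * Dm * N) +
          2 ^ d * (if (Fm.neg (bigAnd dd C)).len ≤ 4 ^ d then 0 else 1)) := by ring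
      _ ≤ c * ℓ0 * 400 * ((g + 1) ^ 2 * mt d (2 * Dm * N) +
          2 ^ d * (if (Fm.neg (bigAnd dd C)).len ≤ 4 ^ d then 0 else 1)) := by gcongr
      _ = _ := by rw [hc1]
  · intro i
    refine (henc (pf i)).trans (Nat.mul_le_mul_right _ ?_)
    refine (hlb' _ (hpf1 i)).trans ?_
    rw [hc1]
    calc c * (ℓ0 * (4 ^ g * 4 ^ d) + (Fm.neg (bigAnd dd C)).len) ≤
          c * (ℓ0 * (4 ^ g * 4 ^ d) + ℓ0 * (Fm.neg (bigAnd dd C)).len) := by
          refine Nat.mul_le_mul_left _ (Nat.add_le_add_left ?_ _)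
          exact Nat.le_mul_of_pos_left _ hℓ1
      _ = c * ℓ0 * 1 * (4 ^ g * 4 ^ d + (Fm.neg (bigAnd dd C)).len) := by ring
      _ ≤ c * ℓ0 * 400 * (4 ^ g * 4 ^ d + (Fm.neg (bigAnd dd C)).len) := by gcongr; norm_num

end Pool.Agent.H90.UB
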