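import Mathlib
import Pool.Agent.H90.UB.Fixd

set_option autoImplicit false
set_option linter.unusedSectionVars false

/-!
# Module FIN: the upper bound with real exponents
-/

namespace Pool.Agent.H90.UB

open Finset Filter Topology Pool.Agent.H3.Frg Pool.Agent.H3.Frg2 Pool.Agent.H3.Frg4

theorem ev_pow (e : ℝ) (he : 0 < e) (a T : ℕ) :
    ∀ᶠ n : ℕ in atTop, (T : ℝ) * ((a * (n + 1) : ℕ) : ℝ) ^ 2 ≤ ((2 : ℝ) ^ n) ^ e := by
  obtain ⟨r, hr⟩ : ∃ r : ℝ, r = (2 : ℝ) ^ (-e) := ⟨_, rfl⟩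
  have hr0 : 0 < r := by rw [hr]; positivity
  have hr1 : r < 1 := by
    rw [hr]
    exact Real.rpow_lt_one_of_one_lt_of_neg (by norm_num) (by linarith)
  have h1 : Tendsto (fun n : ℕ => (n : ℝ) ^ 2 * r ^ n) atTop (𝓝 0) :=
    tendsto_pow_const_mul_const_pow_of_abs_lt_one 2 (by rw [abs_of_pos hr0]; exact hr1)
  have h2 : Tendsto (fun n : ℕ => (T : ℝ) * (2 * a) ^ 2 * ((n : ℝ) ^ 2 * r ^ n)) atTop (𝓝 0) := by
    have := h1.const_mul ((T : ℝ) * (2 * a) ^ 2)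
    simpa using this
  filter_upwards [h2.eventually (gt_mem_nhds (show (0:ℝ) < 1 by norm_num)),
    eventually_ge_atTop 1] with n hn hn1
  have hn1' : (1 : ℝ) ≤ n := by exact_mod_cast hn1
  have h3 : ((2 : ℝ) ^ n) ^ e * r ^ n = 1 := by
    rw [hr, ← Real.rpow_natCast 2 n, ← Real.rpow_mul (by norm_num), ← Real.rpow_natCast (2 ^ (-e)) n,
      ← Real.rpow_mul (by norm_num), ← Real.rpow_add (by norm_num)]
    have : (n : ℝ) * e + -e * n = 0 := by ring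
    rw [this, Real.rpow_zero]
  have h4 : (T : ℝ) * ((a * (n + 1) : ℕ) : ℝ) ^ 2 * r ^ n ≤ 1 := by
    refine le_trans ?_ hn.le
    have h5 : ((a * (n + 1) : ℕ) : ℝ) ≤ 2 * a * n := by
      push_cast
      have : (0:ℝ) ≤ a := Nat.cast_nonneg a
      nlinarith
    have h6 : ((a * (n + 1) : ℕ) : ℝ) ^ 2 ≤ (2 * a * n) ^ 2 :=
      pow_le_pow_left₀ (Nat.cast_nonneg _) h5 2
    calc (T : ℝ) * ((a * (n + 1) : ℕ) : ℝ) ^ 2 * r ^ n ≤ (T : ℝ) * (2 * a * n) ^ 2 * r ^ n := by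
          gcongr
      _ = _ := by ring
  have hr2 : 0 < r ^ n := pow_pos hr0 n
  calc (T : ℝ) * ((a * (n + 1) : ℕ) : ℝ) ^ 2 =
        ((T : ℝ) * ((a * (n + 1) : ℕ) : ℝ) ^ 2 * r ^ n) * ((2 : ℝ) ^ n) ^ e := by
        rw [mul_assoc, mul_comm (r ^ n), h3, mul_one]
    _ ≤ 1 * ((2 : ℝ) ^ n) ^ e := by gcongr
    _ = _ := one_mul _

private theorem clog_le (M : ℕ) (hM : 1 ≤ M) : M ≤ 2 ^ Nat.clog 2 M ∧ 2 ^ Nat.clog 2 M ≤ 2 * M := by
  refine ⟨Nat.le_pow_clog (by norm_num) _, ?_⟩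
  rcases Nat.lt_or_ge 1 M with h | h
  · have h3 : 2 ^ (Nat.clog 2 M - 1) < M := by
      have := Nat.pow_pred_clog_lt_self (b := 2) (by norm_num) h
      simpa using this
    have h4 : 0 < Nat.clog 2 M := Nat.clog_pos (by norm_num) h
    calc 2 ^ Nat.clog 2 M = 2 * 2 ^ (Nat.clog 2 M - 1) := by
          rw [← pow_succ']; congr 1; omega
      _ ≤ 2 * M := by omega
  · have h3 : M = 1 := by omega
    rw [h3]
    simp

theorem ub_final {F : Set (Fm ℕ)} (hF : Compl F) (Dm : ℕ) (hDm : 1 ≤ Dm) (K A : ℕ) (e : ℝ)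
    (he : 0 < e) (d0 : ℕ → ℕ) (C : ℕ → ℕ → Fm ℕ) (τ : ℕ → Fm ℕ)
    (hτ : ∀ n, τ n = Fm.neg (bigAnd (d0 n) (C n))) (Nf : ℕ → ℕ)
    (hN : ∀ n, 2 ^ n ≤ Nf n ∧ Nf n ≤ (τ n).enc.length ∧ UBP Dm (Nf n) (C n) ∧
        (τ n).enc.length ≤ (Nf n * K + 4) * (2 * Nat.size (Dm * Nf n) + 2))
    (hub : ∀ᶠ n in atTop, (τ n).enc.length ≤ (2 ^ (n + 10)) ^ A) :
    ∀ᶠ n in atTop, ∀ N : ℕ, 1 ≤ N → (N : ℝ) ≤ ((τ n).enc.length : ℝ) →
      ∃ (L : ℕ) (pf : Fin L → Fm ℕ), IsDer F (Set.range (C n)) pf ∧ (∃ i, pf i = τ n) ∧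
        L ≤ (τ n).enc.length ^ 4 ∧ (∀ i, (pf i).enc.length ≤ (τ n).enc.length ^ 5) ∧
        (({A | (∃ i, A = pf i) ∧ ((τ n).enc.length : ℝ) ^ (2 + e) / (N : ℝ) ^ 2 <
          (A.enc.length : ℝ)}.ncard : ℕ) : ℝ) ≤ ((N : ℝ) - 1) * ((τ n).enc.length : ℝ) ^ e := by
  obtain ⟨c, hc, hfix⟩ := ub_fixed hF Dm hDm
  -- constants
  obtain ⟨T, hT⟩ : ∃ T, T = 2000 * c * Dm ^ 4 * (K + 5) := ⟨_, rfl⟩
  obtain ⟨a, ha⟩ : ∃ a, a = 10 * A + Dm + 30 := ⟨_, rfl⟩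
  filter_upwards [hub, ev_pow e he a T, ev_pow 1 one_pos a T] with n hubn he1 he2
  intro N hN1 hNx
  obtain ⟨hNn1, hNn2, hU, hNn3⟩ := hN n
  obtain ⟨X, hX⟩ : ∃ X, X = (τ n).enc.length := ⟨_, rfl⟩
  obtain ⟨Nn, hNn⟩ : ∃ Nn, Nn = Nf n := ⟨_, rfl⟩
  rw [← hX] at hubn hNn2 hNn3 hNx ⊢
  rw [← hNn] at hNn1 hNn2 hNn3 hU
  obtain ⟨q, hq⟩ : ∃ q, q = a * (n + 1) := ⟨_, rfl⟩
  rw [← hq] at he1 he2
  rw [Real.rpow_one] at he2
  have he2' : T * q ^ 2 ≤ 2 ^ n := by exact_mod_cast he2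
  have hNX : N ≤ X := by exact_mod_cast hNx
  have h2n : 1 ≤ 2 ^ n := Nat.one_le_two_pow
  have hNn0 : 1 ≤ Nn := by omega
  have hX0 : 1 ≤ X := by omega
  have hq1 : 1 ≤ q := by rw [hq, ha]; exact Nat.mul_pos (by omega) (by omega)
  have hqq : q ≤ q ^ 2 := Nat.le_self_pow (by omega) q
  have hDX : 8 * Dm * X ≤ 2 ^ (q - 2) := by
    have h1 : 8 * Dm ≤ 2 ^ (Dm + 3) := by
      have := (Nat.lt_two_pow_self (n := Dm)).le
      rw [pow_add]
      omega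
    have h2 : 8 * Dm * X ≤ 2 ^ (Dm + 3) * 2 ^ ((n + 10) * A) := by
      rw [pow_mul]
      exact Nat.mul_le_mul h1 hubn
    refine h2.trans ?_
    rw [← pow_add]
    refine Nat.pow_le_pow_right (by norm_num) ?_
    rw [hq, ha]
    have h3 : (10 * A + Dm + 30) * (n + 1) = 10 * A * n + 10 * A + Dm * n + Dm + 30 * n + 30 := by
      ring
    have h4 : (n + 10) * A = A * n + 10 * A := by ring
    rw [h3, h4]
    have h5 : A * n ≤ 10 * A * n := by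
      calc A * n = 1 * A * n := by ring
        _ ≤ 10 * A * n := by gcongr; norm_num
    omega
  have hq2 : 2 ≤ q := by rw [hq, ha]; nlinarith
  -- the size of the names
  have hsize : Nat.size (Dm * Nn) ≤ q := by
    rw [Nat.size_le]
    refine lt_of_le_of_lt ?_ (lt_of_le_of_lt hDX (Nat.pow_lt_pow_right (by norm_num)
      (show q - 2 < q by omega)))
    calc Dm * Nn ≤ Dm * X := Nat.mul_le_mul_left _ hNn2
      _ = 1 * Dm * X := by ring
      _ ≤ 8 * Dm * X := by gcongr; norm_num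
  obtain ⟨Λ, hΛ⟩ : ∃ Λ, Λ = 2 * Nat.size (Dm * Nn) + 2 := ⟨_, rfl⟩
  have hΛq : Λ ≤ 4 * q := by omega
  -- choice of `g` and `d`
  obtain ⟨g, hg⟩ : ∃ g, g = Nat.clog 2 (Dm * Nn) := ⟨_, rfl⟩
  obtain ⟨hg1, hg2⟩ := clog_le (Dm * Nn) (Nat.mul_pos hDm hNn0)
  rw [← hg] at hg1 hg2
  obtain ⟨Y, hY⟩ : ∃ Y, Y = 2 * Dm * Nn / N := ⟨_, rfl⟩
  obtain ⟨M, hM⟩ : ∃ M, M = Y + Dm + 1 := ⟨_, rfl⟩
  obtain ⟨d, hd⟩ : ∃ d, d = Nat.clog 2 M := ⟨_, rfl⟩
  obtain ⟨hd1, hd2⟩ := clog_le M (by omega)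
  rw [← hd] at hd1 hd2
  have hDd : Dm ≤ 2 ^ d := by omega
  have hMN : 2 * Dm * Nn ≤ M * N := by
    have h1 := Nat.lt_div_mul_add (a := 2 * Dm * Nn) (show 0 < N by omega)
    rw [← hY] at h1
    have h2 : M * N = Y * N + (Dm + 1) * N := by rw [hM]; ring
    have h3 : N ≤ (Dm + 1) * N := Nat.le_mul_of_pos_left _ (by omega)
    omega
  have hdN : 2 * Dm * Nn ≤ 2 ^ d * N := hMN.trans (Nat.mul_le_mul_right _ hd1)
  have hdX : 2 ^ d * N ≤ 8 * Dm * X := by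
    have h1 : 2 ^ d * N ≤ 2 * M * N := Nat.mul_le_mul_right _ hd2
    have h2 : 2 * M * N = 2 * (Y * N) + 2 * (Dm + 1) * N := by rw [hM]; ring
    have h3 : Y * N ≤ 2 * Dm * Nn := by rw [hY]; exact Nat.div_mul_le_self _ _
    have h4 : 2 * Dm * Nn ≤ 2 * Dm * X := Nat.mul_le_mul_left _ hNn2
    have h5 : 2 * (Dm + 1) * N ≤ 2 * (Dm + 1) * X := Nat.mul_le_mul_left _ hNX
    have h6 : 2 * (Dm + 1) * X = 2 * Dm * X + 2 * X := by ring
    have h7 : 8 * Dm * X = 4 * (Dm * X) + 4 * (Dm * X) := by ring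
    have h8 : 2 * Dm * X = 2 * (Dm * X) := by ring
    have h9 : X ≤ Dm * X := Nat.le_mul_of_pos_left _ (by omega)
    omega
  have hdX1 : 2 ^ d ≤ 8 * Dm * X := (Nat.le_mul_of_pos_right _ (by omega)).trans hdX
  have hgX : 2 ^ g ≤ 2 * Dm * X := by
    refine hg2.trans ?_
    rw [← mul_assoc]
    exact Nat.mul_le_mul_left _ hNn2
  have hdq : d + 1 ≤ q := by
    have h1 : 2 ^ d ≤ 2 ^ (q - 2) := hdX1.trans hDX
    have h2 := (Nat.pow_le_pow_iff_right (by norm_num : 1 < 2)).1 h1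
    omega
  have hgq : g + 1 ≤ q := by
    have h1 : 2 ^ g ≤ 2 ^ (q - 2) := by
      refine (hgX.trans ?_).trans hDX
      gcongr
      norm_num
    have h2 := (Nat.pow_le_pow_iff_right (by norm_num : 1 < 2)).1 h1
    omega
  obtain ⟨L, pf, hpf, hpfτ, hL, hlong, hbig⟩ := hfix Nn (C n) hU (d0 n) d g hDd hg1
  rw [← hτ n] at hpfτ hlong hbig
  rw [← hΛ] at hlong hbig hNn3
  have hD1 : 1 ≤ Dm ^ 4 := Nat.one_le_pow _ _ hDm
  have hD2 : Dm ^ 2 ≤ Dm ^ 4 := Nat.pow_le_pow_right hDm (by norm_num)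
  have hτl : (τ n).len ≤ X := by rw [hX]; exact len_le_enc _
  have hDD : ∀ k ≤ 2000, k * c * Dm ^ 2 ≤ 2000 * c * Dm ^ 4 := fun k hk =>
    Nat.mul_le_mul (Nat.mul_le_mul_right _ hk) hD2
  have hcT : ∀ B : ℕ, B ≤ 2000 * c * Dm ^ 4 → B * q ^ 2 ≤ X := by
    intro B hB
    refine le_trans ?_ (he2'.trans (hNn1.trans hNn2))
    refine Nat.mul_le_mul_right _ ?_
    rw [hT]
    exact hB.trans (Nat.le_mul_of_pos_right _ (by omega))
  have hxe : ∀ B : ℕ, B ≤ 2000 * c * Dm ^ 4 → ((B * q ^ 2 : ℕ) : ℝ) ≤ (X : ℝ) ^ e := by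
    intro B hB
    have h1 : ((B * q ^ 2 : ℕ) : ℝ) ≤ (T : ℝ) * (q : ℝ) ^ 2 := by
      have h2 : B * q ^ 2 ≤ T * q ^ 2 := by
        refine Nat.mul_le_mul_right _ ?_
        rw [hT]
        exact hB.trans (Nat.le_mul_of_pos_right _ (by omega))
      exact_mod_cast h2
    refine (h1.trans he1).trans ?_
    refine Real.rpow_le_rpow (by positivity) ?_ he.le
    have : 2 ^ n ≤ X := hNn1.trans hNn2
    exact_mod_cast this
  refine ⟨L, pf, hpf, hpfτ, ?_, ?_, ?_⟩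
  · -- number of lines
    refine hL.trans ?_
    calc c * (Nn * 2 ^ g * (2 ^ d * (d + 1))) ≤ c * (X * (2 * Dm * X) * (8 * Dm * X * q)) := by
          gcongr
      _ = (16 * c * Dm ^ 2 * q) * X ^ 3 := by ring
      _ ≤ X * X ^ 3 := by
          refine Nat.mul_le_mul_right _ (le_trans ?_ (hcT (16 * c * Dm ^ 2) (hDD 16 (by norm_num))))
          gcongr
      _ = X ^ 4 := by ring
  · intro i
    refine (hbig i).trans ?_
    have h1 : 4 ^ g ≤ (2 * Dm * X) ^ 2 := by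
      have : 4 ^ g = (2 ^ g) ^ 2 := by rw [← pow_mul, mul_comm, pow_mul]; norm_num
      rw [this]
      exact Nat.pow_le_pow_left hgX 2
    have h2 : 4 ^ d ≤ (8 * Dm * X) ^ 2 := by
      have : 4 ^ d = (2 ^ d) ^ 2 := by rw [← pow_mul, mul_comm, pow_mul]; norm_num
      rw [this]
      exact Nat.pow_le_pow_left hdX1 2
    have h3 : X ≤ Dm ^ 4 * X ^ 4 := by
      calc X = 1 * X ^ 1 := by ring
        _ ≤ Dm ^ 4 * X ^ 4 := Nat.mul_le_mul hD1 (Nat.pow_le_pow_right hX0 (by norm_num))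
    have h5 : (2 * Dm * X) ^ 2 * (8 * Dm * X) ^ 2 = 256 * (Dm ^ 4 * X ^ 4) := by ring
    calc c * (4 ^ g * 4 ^ d + (τ n).len) * Λ ≤
          c * ((2 * Dm * X) ^ 2 * (8 * Dm * X) ^ 2 + X) * (4 * q) := by
          gcongr
      _ ≤ c * (256 * (Dm ^ 4 * X ^ 4) + Dm ^ 4 * X ^ 4) * (4 * q) := by
          rw [h5]
          gcongr
      _ = (1028 * c * Dm ^ 4 * q) * X ^ 4 := by ring
      _ ≤ X * X ^ 4 := by
          refine Nat.mul_le_mul_right _ (le_trans ?_ (hcT (1028 * c * Dm ^ 4) ?_))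
          · gcongr
          · gcongr
            norm_num
      _ = X ^ 5 := by ring
  · -- long lines
    have hN0 : (0 : ℝ) < N := by exact_mod_cast hN1
    have hXr : (0 : ℝ) < X := by exact_mod_cast hX0
    have hthr : ((c * 4 ^ d * Λ : ℕ) : ℝ) ≤ (X : ℝ) ^ (2 + e) / (N : ℝ) ^ 2 := by
      rw [le_div_iff₀ (by positivity)]
      have h1 : c * 4 ^ d * Λ * N ^ 2 ≤ (256 * c * Dm ^ 2 * q ^ 2) * X ^ 2 := by
        have h2 : 4 ^ d = (2 ^ d) ^ 2 := by rw [← pow_mul, mul_comm, pow_mul]; norm_num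
        calc c * 4 ^ d * Λ * N ^ 2 = c * Λ * (2 ^ d * N) ^ 2 := by rw [h2]; ring
          _ ≤ c * (4 * q ^ 2) * (8 * Dm * X) ^ 2 := by
              gcongr
              omega
          _ = _ := by ring
      have h3 : ((c * 4 ^ d * Λ : ℕ) : ℝ) * (N : ℝ) ^ 2 ≤
          ((256 * c * Dm ^ 2 * q ^ 2 : ℕ) : ℝ) * (X : ℝ) ^ 2 := by exact_mod_cast h1
      refine h3.trans ?_
      have h4 : (X : ℝ) ^ (2 + e) = (X : ℝ) ^ e * (X : ℝ) ^ 2 := by
        rw [Real.rpow_add hXr, mul_comm]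
        norm_num
      rw [h4]
      exact mul_le_mul_of_nonneg_right (hxe _ (hDD 256 (by norm_num))) (by positivity)
    have hfin : {A | (∃ i, A = pf i) ∧ c * 4 ^ d * Λ < A.enc.length}.Finite :=
      (Set.finite_range pf).subset (by rintro A ⟨⟨i, rfl⟩, _⟩; exact ⟨i, rfl⟩)
    have hsub : {A | (∃ i, A = pf i) ∧ (X : ℝ) ^ (2 + e) / (N : ℝ) ^ 2 < (A.enc.length : ℝ)} ⊆
        {A | (∃ i, A = pf i) ∧ c * 4 ^ d * Λ < A.enc.length} := by
      rintro A ⟨hi, h1⟩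
      refine ⟨hi, ?_⟩
      have := lt_of_le_of_lt hthr h1
      exact_mod_cast this
    have hcard := Set.ncard_le_ncard hsub hfin
    obtain ⟨B0, hB0⟩ : ∃ B0, B0 = {A | (∃ i, A = pf i) ∧ (X : ℝ) ^ (2 + e) / (N : ℝ) ^ 2 <
      (A.enc.length : ℝ)}.ncard := ⟨_, rfl⟩
    obtain ⟨B1, hB1⟩ : ∃ B1, B1 = {A | (∃ i, A = pf i) ∧ c * 4 ^ d * Λ < A.enc.length}.ncard :=
      ⟨_, rfl⟩
    rw [← hB0] at hcard ⊢
    rw [← hB1] at hcard hlong
    rcases Nat.lt_or_ge 1 N with hN2 | hN2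
    · -- `N ≥ 2`
      have h1 : mt d (2 * Dm * Nn) ≤ 2 ^ d * N := by
        unfold mt
        split_ifs
        · omega
        · exact hdN
      have h2 : 2 ^ d * B1 ≤ 2 ^ d * (c * ((g + 1) ^ 2 * N + 1)) := by
        refine hlong.trans ?_
        have h3 : (2 ^ d * (if (τ n).len ≤ 4 ^ d then 0 else 1)) ≤ 2 ^ d * 1 := by
          refine Nat.mul_le_mul_left _ ?_
          split_ifs <;> omega
        calc c * ((g + 1) ^ 2 * mt d (2 * Dm * Nn) + 2 ^ d * (if (τ n).len ≤ 4 ^ d then 0 else 1))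
            ≤ c * ((g + 1) ^ 2 * (2 ^ d * N) + 2 ^ d * 1) := by gcongr
          _ = _ := by ring
      have h3 : B1 ≤ c * ((g + 1) ^ 2 * N + 1) :=
        Nat.le_of_mul_le_mul_left h2 (by positivity)
      have h4 : B0 ≤ (4 * c * q ^ 2) * (N - 1) := by
        refine (hcard.trans h3).trans ?_
        have h5 : (g + 1) ^ 2 ≤ q ^ 2 := Nat.pow_le_pow_left hgq 2
        have h6 : 1 ≤ q ^ 2 * N := Nat.mul_pos (by positivity) (by omega)
        calc c * ((g + 1) ^ 2 * N + 1) ≤ c * (q ^ 2 * N + q ^ 2 * N) := by gcongr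
          _ = (2 * c * q ^ 2) * N := by ring
          _ ≤ (2 * c * q ^ 2) * (2 * (N - 1)) := Nat.mul_le_mul_left _ (by omega)
          _ = _ := by ring
      have h5 : ((B0 : ℕ) : ℝ) ≤ ((4 * c * q ^ 2 : ℕ) : ℝ) * ((N : ℝ) - 1) := by
        have h6 : ((N : ℝ) - 1) = ((N - 1 : ℕ) : ℝ) := by
          rw [Nat.cast_sub hN1]; norm_num
        rw [h6]
        exact_mod_cast h4
      refine h5.trans ?_
      rw [mul_comm]
      refine mul_le_mul_of_nonneg_left ?_ ?_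
      · refine hxe (4 * c) ?_
        have h7 : 4 * c * 1 ≤ 2000 * c * Dm ^ 4 :=
          Nat.mul_le_mul (Nat.mul_le_mul_right _ (by norm_num)) hD1
        omega
      · have : (1 : ℝ) ≤ N := by exact_mod_cast hN1
        linarith
    · -- `N = 1`
      have hN' : N = 1 := by omega
      rw [hN', mul_one] at hdN
      have h1 : mt d (2 * Dm * Nn) = 0 := by
        unfold mt
        rw [if_pos hdN]
      have h2 : (τ n).len ≤ 4 ^ d := by
        have h3 : X ≤ Nn * Nn := by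
          calc X ≤ (Nn * K + 4) * Λ := hNn3
            _ ≤ (Nn * K + 4 * Nn) * (4 * q) := by
                refine Nat.mul_le_mul (Nat.add_le_add_left ?_ _) hΛq
                exact Nat.le_mul_of_pos_right _ hNn0
            _ = Nn * (4 * (K + 4) * q) := by ring
            _ ≤ Nn * Nn := by
                refine Nat.mul_le_mul_left _ (le_trans ?_ (he2'.trans hNn1))
                refine Nat.mul_le_mul ?_ hqq
                rw [hT]
                calc 4 * (K + 4) = 4 * 1 * 1 * (K + 4) := by ring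
                  _ ≤ 2000 * c * Dm ^ 4 * (K + 5) := by gcongr <;> norm_num
        have h4 : Nn * Nn ≤ 4 ^ d := by
          have h5 : 4 ^ d = 2 ^ d * 2 ^ d := by
            rw [← pow_add, ← two_mul, pow_mul]; norm_num
          rw [h5]
          have h6 : Nn ≤ 2 ^ d := by
            refine le_trans ?_ hdN
            calc Nn = 1 * 1 * Nn := by ring
              _ ≤ 2 * Dm * Nn := by gcongr; norm_num
          exact Nat.mul_le_mul h6 h6
        omega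
      rw [h1, if_pos h2] at hlong
      have h3 : B1 = 0 := by
        have h4 : 2 ^ d * B1 ≤ 2 ^ d * 0 := by simpa using hlong
        have := Nat.le_of_mul_le_mul_left h4 (by positivity)
        omega
      have h4 : B0 = 0 := by omega
      rw [h4, hN']
      simp

end Pool.Agent.H90.UB
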